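import Pool.Agent.Helper73.KP.Induct
import Pool.Agent.Helper73.KP.Pencil

/-!
Assembly.
-/

namespace Pool.Agent.Helper73.KP

open MvPolynomial Pool.Agent.Helper41.PP

noncomputable section

variable {k : Type} [Field k] {e s : ℕ}

/-- The ideal of the cone over `V(q)` with vertex `z = v = x = 0`. -/
def joinI (q : Ideal (MvPolynomial (Fin s) k)) : Ideal (MvPolynomial (Var e s) k) :=
  q.map (rename Var.x : MvPolynomial (Fin s) k →ₐ[k] MvPolynomial (Var e s) k).toRingHom ⊔
    Ideal.span (insert (X Var.z) (Set.range fun i => X (Var.v i)))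

theorem Family.poly_deg (A : Family k e s) : IsWeightedHomogeneous A.w A.poly A.D := by
  unfold Family.poly
  refine (A.g_deg.add ?_).add ?_
  · apply IsWeightedHomogeneous.sum
    intro i _
    refine IsWeightedHomogeneous.add ?_ (A.h_deg i)
    have h1 := (isWeightedHomogeneous_X k A.w (Var.u i)).mul
      ((isWeightedHomogeneous_X k A.w (Var.v i)).pow (A.α i))
    have h2 : A.w (.u i) + A.α i • A.w (.v i) = A.D := by
      rw [smul_eq_mul, add_comm]
      exact A.α_deg i
    rwa [h2] at h1
  · rw [whom_rename Var.x (fun a b hab => by injection hab)]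
    exact A.f_deg

theorem Family.z_deg (A : Family k e s) : IsWeightedHomogeneous A.w A.G A.D := by
  unfold Family.G
  have h1 := (isWeightedHomogeneous_X k A.w Var.z).pow A.β
  rwa [smul_eq_mul, A.β_deg] at h1

theorem Family.β_pos (A : Family k e s) : 0 < A.β := by
  rcases Nat.eq_zero_or_pos A.β with h | h
  · have h1 := A.β_deg
    rw [h, zero_mul] at h1
    have := A.D_pos
    omega
  · exact h

/-- The variable `z` vanishes. -/
theorem z_step {σ : Type} [Finite σ] (w : Option σ → ℕ) (β : ℕ) (hβ : 0 < β)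
    (g : MvPolynomial (Option σ) k) (p : MvPolynomial σ k) (c : ℕ) :
    Onto (fun a => w (some a)) (Ideal.span {p}) c w
      (Ideal.span {X none * g + rn σ k p, X none ^ β}) (c + 1)
      (fun q => (q.map (rn _ k)) ⊔ Ideal.span {X none}) := by
  refine zero_step w (Ideal.span {p}) _ ?_ ?_ c
  · have hX : (X none : MvPolynomial (Option σ) k) ∈
        (Ideal.span {p}).map (rn σ k) ⊔ Ideal.span {X none} :=
      Ideal.mem_sup_right (Ideal.mem_span_singleton_self _)
    have hf : rn σ k p ∈ (Ideal.span {p}).map (rn σ k) ⊔ Ideal.span {X none} :=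
      Ideal.mem_sup_left (Ideal.mem_map_of_mem _ (Ideal.mem_span_singleton_self _))
    rw [Ideal.span_le, Set.insert_subset_iff, Set.singleton_subset_iff]
    exact ⟨Ideal.add_mem _ (Ideal.mul_mem_right _ _ hX) hf, Ideal.pow_mem_of_mem _ hX _ hβ⟩
  · intro Q hQ hle
    rw [Ideal.span_le, Set.insert_subset_iff, Set.singleton_subset_iff] at hle
    have h3 : (X none : MvPolynomial (Option σ) k) ∈ Q := hQ.mem_of_pow_mem _ hle.2
    refine ⟨h3, ?_⟩
    rw [Ideal.map_span, Set.image_singleton, Ideal.span_le, Set.singleton_subset_iff]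
    exact (Ideal.add_mem_iff_right _ (Ideal.mul_mem_right _ _ h3)).1 hle.1

theorem base_eq (A : Family k e s) (p : MvPolynomial (VarT e s) k)
    (hun : rename (zE e s) A.poly = X none * rename (zE e s) A.g + rn (VarT e s) k p) :
    baseI ⊥ A.poly A.G = (Ideal.span {X none * rename (zE e s) A.g +
        rn (VarT e s) k p, X none ^ A.β}).map (rename (zE e s).symm :
        MvPolynomial (Option (VarT e s)) k →ₐ[k] MvPolynomial (Var e s) k).toRingHom := by
  have hpoly : A.poly = (rename (zE e s).symm :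
        MvPolynomial (Option (VarT e s)) k →ₐ[k] MvPolynomial (Var e s) k).toRingHom
        (X none * rename (zE e s) A.g + rn (VarT e s) k p) := by
    rw [← hun]
    change A.poly = rename (zE e s).symm (rename (zE e s) A.poly)
    rw [rename_rename]
    have : ((zE e s).symm : _ → _) ∘ (zE e s) = id := by
      funext a
      exact (zE e s).symm_apply_apply a
    rw [this, rename_id, AlgHom.id_apply]
  have hz : (rename (zE e s).symm :
        MvPolynomial (Option (VarT e s)) k →ₐ[k] MvPolynomial (Var e s) k).toRingHom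
      (X none ^ A.β) = A.G := by
    rw [map_pow, Family.G]
    congr 1
    exact rename_X _ _
  rw [baseI, bot_sup_eq, Ideal.map_span, Set.image_insert_eq, Set.image_singleton, hz, ← hpoly]

theorem pencil_onto {σ : Type} [Finite σ] (w : σ → ℕ) (hw : ∀ i, 0 < w i)
    (F G : MvPolynomial σ k) (m : ℕ) (hF : IsWeightedHomogeneous w F m)
    (hG : IsWeightedHomogeneous w G m) (c : ℕ) (hc : 0 < c) :
    Onto w (baseI ⊥ F G) (c + 1) w (pencilI ⊥ F G) (c + 1) (fun q => q.map (ct σ k)) := by
  obtain ⟨φ, h1, h2⟩ := pencil w hw F G m hF hG c hc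
  exact ⟨φ, h1, h2⟩

/-- From `z = 0` to the pencil. -/
theorem gen_pencil {σ τ : Type} [Finite σ] [Finite τ] (ε : Option σ ≃ τ) (w : τ → ℕ)
    (hw : ∀ i, 0 < w i) (F G : MvPolynomial τ k) (m : ℕ) (hF : IsWeightedHomogeneous w F m)
    (hG : IsWeightedHomogeneous w G m) (β : ℕ) (hβ : 0 < β) (g : MvPolynomial (Option σ) k)
    (p : MvPolynomial σ k) (hb : baseI ⊥ F G = (Ideal.span {X none * g + rn σ k p,
      X none ^ β}).map (rename ε : MvPolynomial (Option σ) k →ₐ[k] MvPolynomial τ k).toRingHom)
    (c : ℕ) (hc : 0 < c) :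
    Onto (fun a => w (ε (some a))) (Ideal.span {p}) c w (pencilI ⊥ F G) (c + 1)
      (fun q => (((q.map (rn _ k)) ⊔ Ideal.span {X none}).map (rename ε :
        MvPolynomial (Option σ) k →ₐ[k] MvPolynomial τ k).toRingHom).map (ct _ k)) :=
  ((z_step (fun o => w (ε o)) β hβ g p c).trans (transport ε w _ _ hb (c + 1))).trans
    (pencil_onto w hw F G m hF hG c hc)

theorem fam_good (A : Family k e s) : ∃ h' : Fin e → MvPolynomial (VarT e s) k,
    rename (zE e s) A.poly = X none * rename (zE e s) A.g + rn (VarT e s) k (polyT A.α h' A.f) ∧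
    Good (fun a => A.w ((zE e s).symm (some a))) (polyT A.α h' A.f) A.f := by
  obtain ⟨h', hun, hv', hh'⟩ := unz A
  exact ⟨h', hun, good (fun a => A.w ((zE e s).symm (some a))) (fun a => A.w_pos _) A.D A.α
    A.α_pos A.α_deg h' hv' hh' A.f A.f_ne A.f_deg⟩

theorem fam_step (A : Family k e s) (p : MvPolynomial (VarT e s) k)
    (hun : rename (zE e s) A.poly = X none * rename (zE e s) A.g + rn (VarT e s) k p)
    (c : ℕ) (hc : 0 < c) : Onto (fun a => A.w ((zE e s).symm (some a))) (Ideal.span {p}) c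
      A.w (pencilI ⊥ A.poly A.G) (c + 1)
      (fun q => (((q.map (rn _ k)) ⊔ Ideal.span {X none}).map (rename (zE e s).symm :
        MvPolynomial (Option (VarT e s)) k →ₐ[k] MvPolynomial (Var e s) k).toRingHom).map
          (ct _ k)) :=
  gen_pencil (zE e s).symm A.w A.w_pos A.poly A.G A.D A.poly_deg A.z_deg A.β A.β_pos
    (rename (zE e s) A.g) p (base_eq A p hun) c hc

theorem joinI_eq (q : Ideal (MvPolynomial (Fin s) k)) :
    ((((joinT q : Ideal (MvPolynomial (VarT e s) k)).map (rn _ k)) ⊔
      Ideal.span {X none}).map (rename (zE e s).symm :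
        MvPolynomial (Option (VarT e s)) k →ₐ[k] MvPolynomial (Var e s) k).toRingHom) =
      joinI q := by
  have hX : ∀ o, (rename (zE e s).symm :
        MvPolynomial (Option (VarT e s)) k →ₐ[k] MvPolynomial (Var e s) k).toRingHom
        (X o) = X ((zE e s).symm o) := fun o => rename_X _ _
  have hcomp : ((rename (zE e s).symm :
        MvPolynomial (Option (VarT e s)) k →ₐ[k] MvPolynomial (Var e s) k).toRingHom.comp
          (rn _ k)) =
      (rename (fun a => (zE e s).symm (some a)) :
        MvPolynomial (VarT e s) k →ₐ[k] MvPolynomial (Var e s) k).toRingHom := by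
    apply MvPolynomial.ringHom_ext
    · intro r
      rw [RingHom.comp_apply, rn_C]
      exact (rename_C _ _).trans (rename_C _ _).symm
    · intro i
      rw [RingHom.comp_apply, rn_X, hX]
      exact (rename_X (R := k) (fun a => (zE e s).symm (some a)) i).symm
  have hcomp2 : ((rename (fun a => (zE e s).symm (some a)) :
        MvPolynomial (VarT e s) k →ₐ[k] MvPolynomial (Var e s) k).toRingHom).comp
        (rename VarT.x : MvPolynomial (Fin s) k →ₐ[k] MvPolynomial (VarT e s) k).toRingHom =
      (rename Var.x : MvPolynomial (Fin s) k →ₐ[k] MvPolynomial (Var e s) k).toRingHom := by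
    apply RingHom.ext
    intro p
    exact rename_rename VarT.x (fun a => (zE e s).symm (some a)) p
  rw [joinT, joinI, Ideal.map_sup, Ideal.map_map, hcomp, Ideal.map_sup, Ideal.map_map, hcomp2,
    Ideal.map_span, Ideal.map_span, Set.image_singleton, hX, sup_assoc, ← Ideal.span_union]
  congr 2
  ext p
  constructor
  · rintro (⟨_, ⟨i, rfl⟩, rfl⟩ | hp)
    · exact Or.inr ⟨i, (rename_X (R := k) (fun a => (zE e s).symm (some a)) (.v i)).symm⟩
    · rw [Set.mem_singleton_iff] at hp
      exact Or.inl hp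
  · rintro (hp | ⟨i, rfl⟩)
    · exact Or.inr hp
    · exact Or.inl ⟨X (.v i), ⟨i, rfl⟩,
        rename_X (R := k) (fun a => (zE e s).symm (some a)) (.v i)⟩

theorem fam_onto (A : Family k e s) (c : ℕ) (h1 : 1 ≤ c) (h2 : c ≤ s) :
    Onto (fun j => A.w (.x j)) (Ideal.span {A.f}) c A.w (pencilI ⊥ A.poly A.G)
      (c + e + 1) (fun q => (joinI q : Ideal (MvPolynomial (Var e s) k)).map (ct _ k)) := by
  obtain ⟨h', hun, hg⟩ := fam_good A
  exact ((hg.onto c h1 h2).trans (fam_step A _ hun (c + e) (by omega))).congr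
    (fun q => congrArg (Ideal.map (ct _ k)) (joinI_eq q))

theorem fam_rank (A : Family k e s) (c : ℕ) (h1 : 2 ≤ c) (h2 : c ≤ 2 * e + s)
    (h3 : c ≤ e + 1 ∨ e + s + 1 ≤ c) :
    Module.rank ℚ (CH A.w (pencilI ⊥ A.poly A.G) c) ≤ 1 := by
  obtain ⟨h', hun, hg⟩ := fam_good A
  obtain ⟨c₀, rfl⟩ : ∃ c₀, c = c₀ + 1 := ⟨c - 1, by omega⟩
  refine (fam_step A _ hun c₀ (by omega)).rank_le.trans ?_
  rcases h3 with h3 | h3
  · exact hg.low c₀ (by omega) (by omega)
  · exact hg.high c₀ (by omega) (by omega)

end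

end Pool.Agent.Helper73.KP
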