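import Pool.Agent.Helper73.KP.Defs
import Pool.Agent.CR2.Chain

/-!
The chain members of the family: smooth hypersurfaces.
-/

namespace Pool.Agent.Helper73.KP

open MvPolynomial

noncomputable section

/-- The coordinate after `v (i - 1)` (after `z` for `i = 0`) in the chain
`z, u 0, v 0, u 1, v 1, ..., x 0`. -/
def nextVar (e s : ℕ) (i : ℕ) : Var e (s + 1) := if h : i < e then .u ⟨i, h⟩ else .x 0

/-- The form `z n_0^(m-1) + ∑ (u_i v_i^(m-1) + v_i n_(i+1)^(m-1)) + ∑ x_j^m`, where `n_i` is the
coordinate after `v_(i-1)` in the chain. -/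
def chainPoly (k : Type) [Field k] (e s m : ℕ) : MvPolynomial (Var e (s + 1)) k :=
  X .z * X (nextVar e s 0) ^ (m - 1) +
    ∑ i : Fin e, (X (.u i) * X (.v i) ^ (m - 1) + X (.v i) * X (nextVar e s (i + 1)) ^ (m - 1)) +
    rename .x (∑ j : Fin (s + 1), X j ^ m)

variable {e s : ℕ}

private theorem next_pos {i : ℕ} (h : i < e) : nextVar e s i = .u ⟨i, h⟩ := by
  rw [nextVar, dif_pos h]

private theorem next_neg {i : ℕ} (h : ¬ i < e) : nextVar e s i = .x 0 := by
  rw [nextVar, dif_neg h]

/-- The chain as a member of the family. -/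
def chainFamily (k : Type) [Field k] (e s m : ℕ) (hm : 2 ≤ m) : Family k e (s + 1) where
  w _ := 1
  w_pos _ := one_pos
  D := m
  D_pos := by omega
  α _ := m - 1
  α_pos _ := by omega
  α_deg _ := by omega
  β := m
  β_deg := by omega
  f := ∑ j : Fin (s + 1), X j ^ m
  f_ne := by
    intro h
    have h1 : eval (fun j : Fin (s + 1) => if j = 0 then (1 : k) else 0)
        (∑ j : Fin (s + 1), X j ^ m) = 0 := by
      rw [h, map_zero]
    rw [map_sum, Finset.sum_eq_single (0 : Fin (s + 1))] at h1
    · simp at h1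
    · intro j _ hj
      simp only [map_pow, eval_X, if_neg hj]
      exact zero_pow (by omega)
    · intro h2
      exact absurd (Finset.mem_univ _) h2
  f_deg := by
    apply IsWeightedHomogeneous.sum
    intro j _
    have h1 := (isWeightedHomogeneous_X k (fun _ : Fin (s + 1) => 1) j).pow m
    simpa using h1
  h i := X (nextVar e s (i + 1)) ^ (m - 1)
  h_vars := by
    classical
    intro i a ha
    have h1 : a ∈ (X (nextVar e s (i + 1)) : MvPolynomial (Var e (s + 1)) k).vars :=
      vars_pow _ _ ha
    rw [vars_X, Finset.mem_singleton] at h1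
    rw [h1]
    by_cases h : (i : ℕ) + 1 < e
    · rw [next_pos h]
      show i < (⟨(i : ℕ) + 1, h⟩ : Fin e)
      rw [Fin.lt_def]
      exact Nat.lt_succ_self _
    · rw [next_neg h]
      trivial
  h_deg := by
    intro i
    have h1 := (isWeightedHomogeneous_X k (fun _ : Var e (s + 1) => 1) (.v i)).mul
      ((isWeightedHomogeneous_X k (fun _ : Var e (s + 1) => 1) (nextVar e s (i + 1))).pow (m - 1))
    have h2 : 1 + (m - 1) • 1 = m := by simp; omega
    rwa [h2] at h1
  g := X (nextVar e s 0) ^ (m - 1)
  g_deg := by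
    have h1 := (isWeightedHomogeneous_X k (fun _ : Var e (s + 1) => 1) .z).mul
      ((isWeightedHomogeneous_X k (fun _ : Var e (s + 1) => 1) (nextVar e s 0)).pow (m - 1))
    have h2 : 1 + (m - 1) • 1 = m := by simp; omega
    rwa [h2] at h1

theorem chainFamily_poly (k : Type) [Field k] (e s m : ℕ) (hm : 2 ≤ m) :
    (chainFamily k e s m hm).poly = chainPoly k e s m := rfl

theorem map_chainPoly {k K : Type} [Field k] [Field K] (φ : k →+* K) (m : ℕ) :
    MvPolynomial.map φ (chainPoly k e s m) = chainPoly K e s m := by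
  simp only [chainPoly, map_add, map_mul, map_pow, map_sum, map_X, rename_X]

section deriv

variable {K L : Type} [Field K] [Field L] [Algebra K L] (y : Var e (s + 1) → L)

private theorem d_mul (a : Var e (s + 1)) (P Q : MvPolynomial (Var e (s + 1)) K) :
    aeval y (pderiv a (P * Q)) = aeval y P * aeval y (pderiv a Q) +
      aeval y Q * aeval y (pderiv a P) := by
  rw [Derivation.leibniz, map_add, smul_eq_mul, smul_eq_mul, map_mul, map_mul]

private theorem d_pow (a b : Var e (s + 1)) (n : ℕ) :
    aeval y (pderiv a ((X b : MvPolynomial (Var e (s + 1)) K) ^ n)) =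
      (n : L) * y b ^ (n - 1) * aeval y (pderiv a (X b : MvPolynomial (Var e (s + 1)) K)) := by
  rw [Derivation.leibniz_pow, smul_eq_mul, nsmul_eq_mul, map_mul, map_mul, map_pow, map_natCast,
    aeval_X, mul_assoc]

private theorem d_C (a : Var e (s + 1)) (c : K) :
    aeval y (pderiv a (C c : MvPolynomial (Var e (s + 1)) K)) = 0 := by
  rw [pderiv_C, map_zero]

/-- The value of the derivative of a coordinate. -/
private def dl (K : Type) [Field K] [Algebra K L] (y : Var e (s + 1) → L) (a b : Var e (s + 1)) :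
    L := aeval y (pderiv a (X b : MvPolynomial (Var e (s + 1)) K))

private theorem dl_self (a : Var e (s + 1)) : dl K y a a = 1 := by
  rw [dl, pderiv_X_self, map_one]

private theorem dl_ne {a b : Var e (s + 1)} (h : b ≠ a) : dl K y a b = 0 := by
  rw [dl, pderiv_X_of_ne h, map_zero]

private theorem d_all (m : ℕ) (τ : K) (a : Var e (s + 1)) :
    aeval y (pderiv a (chainPoly K e s m + C τ * X .z ^ m)) =
      (y .z * (((m - 1 : ℕ) : L) * y (nextVar e s 0) ^ (m - 1 - 1) * dl K y a (nextVar e s 0)) +
        y (nextVar e s 0) ^ (m - 1) * dl K y a .z) +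
      ∑ i : Fin e, ((y (.u i) * (((m - 1 : ℕ) : L) * y (.v i) ^ (m - 1 - 1) * dl K y a (.v i)) +
          y (.v i) ^ (m - 1) * dl K y a (.u i)) +
        (y (.v i) * (((m - 1 : ℕ) : L) * y (nextVar e s (i + 1)) ^ (m - 1 - 1) *
          dl K y a (nextVar e s (i + 1))) + y (nextVar e s (i + 1)) ^ (m - 1) * dl K y a (.v i))) +
      ∑ j : Fin (s + 1), (m : L) * y (.x j) ^ (m - 1) * dl K y a (.x j) +
      algebraMap K L τ * ((m : L) * y .z ^ (m - 1) * dl K y a .z) := by
  simp only [chainPoly, map_add, map_sum, d_mul, d_pow, d_C, dl, map_pow, aeval_X, aeval_C,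
    rename_X, mul_zero, add_zero]

private theorem nz (i : ℕ) : nextVar e s i ≠ .z := by
  unfold nextVar
  split_ifs <;> intro h <;> injection h

private theorem nv (i : ℕ) (j : Fin e) : nextVar e s i ≠ .v j := by
  unfold nextVar
  split_ifs <;> intro h <;> injection h

private theorem nu (i : ℕ) (j : Fin e) (h : i ≠ j) : nextVar e s i ≠ .u j := by
  unfold nextVar
  split_ifs
  · intro h2
    injection h2 with h3
    exact h (by rw [← h3])
  · intro h; injection h

private theorem nx (i : ℕ) (j : Fin (s + 1)) (h : i < e ∨ j ≠ 0) : nextVar e s i ≠ .x j := by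
  unfold nextVar
  split_ifs with h1
  · intro h2; injection h2
  · intro h2
    injection h2 with h3
    rcases h with h | h
    · exact h1 h
    · exact h h3.symm

private theorem d_z (m : ℕ) (τ : K) :
    aeval y (pderiv .z (chainPoly K e s m + C τ * X .z ^ m)) =
      y (nextVar e s 0) ^ (m - 1) + algebraMap K L τ * ((m : L) * y .z ^ (m - 1)) := by
  rw [d_all, dl_self, dl_ne y (nz 0), Finset.sum_eq_zero, Finset.sum_eq_zero]
  · ring
  · intro j _
    rw [dl_ne y (by intro h; injection h), mul_zero]
  · intro i _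
    rw [dl_ne y (by intro h; injection h : (Var.v i : Var e (s + 1)) ≠ .z),
      dl_ne y (by intro h; injection h : (Var.u i : Var e (s + 1)) ≠ .z), dl_ne y (nz _)]
    ring

/-- The coordinate before `u_j` (before `x_0` for `j = e`). -/
private def pv (e s : ℕ) (j : ℕ) : Var e (s + 1) :=
  if h : 0 < j ∧ j - 1 < e then .v ⟨j - 1, h.2⟩ else .z

private theorem sum_n (m : ℕ) (a : Var e (s + 1)) (j : ℕ) (hj : j ≤ e) (ha : a ≠ .z)
    (hav : ∀ i : Fin e, a ≠ .v i) (hau : ∀ i : Fin e, a ≠ .u i ∨ (i : ℕ) = j)
    (haj : nextVar e s j = a) (han : ∀ i, i ≤ e → i ≠ j → nextVar e s i ≠ a) (τ : K) :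
    aeval y (pderiv a (chainPoly K e s m + C τ * X .z ^ m)) =
      ((m - 1 : ℕ) : L) * y (pv e s j) * y a ^ (m - 1 - 1) +
      ∑ i : Fin e, y (.v i) ^ (m - 1) * dl K y a (.u i) +
      ∑ j : Fin (s + 1), (m : L) * y (.x j) ^ (m - 1) * dl K y a (.x j) := by
  rw [d_all, dl_ne y (fun h => ha h.symm)]
  have h1 : y .z * (((m - 1 : ℕ) : L) * y (nextVar e s 0) ^ (m - 1 - 1) *
      dl K y a (nextVar e s 0)) + ∑ i : Fin e, y (.v i) * (((m - 1 : ℕ) : L) *
        y (nextVar e s (i + 1)) ^ (m - 1 - 1) * dl K y a (nextVar e s (i + 1))) =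
      ((m - 1 : ℕ) : L) * y (pv e s j) * y a ^ (m - 1 - 1) := by
    rcases Nat.eq_zero_or_pos j with h0 | h0
    · subst h0
      rw [haj, dl_self, Finset.sum_eq_zero]
      · have h2 : pv e s 0 = .z := by
          rw [pv, dif_neg]
          intro h
          exact absurd h.1 (lt_irrefl _)
        rw [h2]
        ring
      · intro i _
        rw [dl_ne y (han _ (by have := i.2; omega) (by omega)), mul_zero, mul_zero]
    · rw [dl_ne y (han 0 (by omega) (by omega)), mul_zero, mul_zero, zero_add,
        Finset.sum_eq_single (⟨j - 1, by omega⟩ : Fin e)]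
      · have h2 : pv e s j = .v ⟨j - 1, by omega⟩ := by
          rw [pv, dif_pos ⟨h0, by omega⟩]
        have h3 : ((⟨j - 1, by omega⟩ : Fin e) : ℕ) + 1 = j := by
          show j - 1 + 1 = j
          omega
        rw [h3, haj, dl_self, h2]
        ring
      · intro i _ hi
        rw [dl_ne y (han _ (by have := i.2; omega) (by
          intro h
          apply hi
          apply Fin.ext
          show (i : ℕ) = j - 1
          omega)), mul_zero, mul_zero]
      · intro h
        exact absurd (Finset.mem_univ _) h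
  rw [← h1]
  have h2 : ∑ i : Fin e, ((y (.u i) * (((m - 1 : ℕ) : L) * y (.v i) ^ (m - 1 - 1) *
        dl K y a (.v i)) + y (.v i) ^ (m - 1) * dl K y a (.u i)) +
        (y (.v i) * (((m - 1 : ℕ) : L) * y (nextVar e s (i + 1)) ^ (m - 1 - 1) *
          dl K y a (nextVar e s (i + 1))) + y (nextVar e s (i + 1)) ^ (m - 1) *
          dl K y a (.v i))) =
      ∑ i : Fin e, y (.v i) * (((m - 1 : ℕ) : L) *
        y (nextVar e s (i + 1)) ^ (m - 1 - 1) * dl K y a (nextVar e s (i + 1))) +
      ∑ i : Fin e, y (.v i) ^ (m - 1) * dl K y a (.u i) := by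
    rw [← Finset.sum_add_distrib]
    apply Finset.sum_congr rfl
    intro i _
    rw [dl_ne y (fun h => hav i h.symm)]
    ring
  rw [h2]
  ring

private theorem d_u (m : ℕ) (τ : K) (j : Fin e) :
    aeval y (pderiv (.u j) (chainPoly K e s m + C τ * X .z ^ m)) =
      ((m - 1 : ℕ) : L) * y (pv e s j) * y (.u j) ^ (m - 1 - 1) + y (.v j) ^ (m - 1) := by
  rw [sum_n y m (.u j) j j.2.le (by intro h; injection h) (by intro i h; injection h)
    (by
      intro i
      by_cases h : i = j
      · right; rw [h]
      · left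
        intro h2
        injection h2 with h3
        exact h h3.symm)
    (by rw [next_pos j.2]) (fun i _ hi => nu i j hi), Finset.sum_eq_single j, dl_self,
    Finset.sum_eq_zero]
  · ring
  · intro i _
    rw [dl_ne y (by intro h; injection h), mul_zero]
  · intro i _ hi
    rw [dl_ne y (by
      intro h
      injection h with h3
      exact hi h3), mul_zero]
  · intro h
    exact absurd (Finset.mem_univ _) h

private theorem d_x0 (m : ℕ) (τ : K) :
    aeval y (pderiv (.x 0) (chainPoly K e s m + C τ * X .z ^ m)) =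
      ((m - 1 : ℕ) : L) * y (pv e s e) * y (.x 0) ^ (m - 1 - 1) +
        (m : L) * y (.x 0) ^ (m - 1) := by
  rw [sum_n y m (.x 0) e le_rfl (by intro h; injection h) (by intro i h; injection h)
    (by intro i; left; intro h; injection h)
    (by rw [next_neg (lt_irrefl e)]) (fun i hi hi2 => nx i 0 (Or.inl (by omega))),
    Finset.sum_eq_zero, Finset.sum_eq_single (0 : Fin (s + 1)), dl_self]
  · ring
  · intro j _ hj
    rw [dl_ne y (by
      intro h
      injection h with h3
      exact hj h3), mul_zero]
  · intro h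
    exact absurd (Finset.mem_univ _) h
  · intro i _
    rw [dl_ne y (by intro h; injection h), mul_zero]

private theorem d_xj (m : ℕ) (τ : K) (j : Fin (s + 1)) (hj : j ≠ 0) :
    aeval y (pderiv (.x j) (chainPoly K e s m + C τ * X .z ^ m)) =
      (m : L) * y (.x j) ^ (m - 1) := by
  rw [d_all, dl_ne y (nx 0 j (Or.inr hj)), dl_ne y (by intro h; injection h : (Var.z : Var e (s + 1)) ≠ .x j),
    Finset.sum_eq_zero, Finset.sum_eq_single j, dl_self]
  · ring
  · intro i _ hi
    rw [dl_ne y (by
      intro h
      injection h with h3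
      exact hi h3), mul_zero]
  · intro h
    exact absurd (Finset.mem_univ _) h
  · intro i _
    rw [dl_ne y (by intro h; injection h : (Var.v i : Var e (s + 1)) ≠ .x j),
      dl_ne y (by intro h; injection h : (Var.u i : Var e (s + 1)) ≠ .x j),
      dl_ne y (nx _ j (Or.inr hj))]
    ring

private theorem d_v (m : ℕ) (τ : K) (j : Fin e) :
    aeval y (pderiv (.v j) (chainPoly K e s m + C τ * X .z ^ m)) =
      ((m - 1 : ℕ) : L) * y (.u j) * y (.v j) ^ (m - 1 - 1) +
        y (nextVar e s (j + 1)) ^ (m - 1) := by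
  rw [d_all, dl_ne y (nv 0 j), dl_ne y (by intro h; injection h : (Var.z : Var e (s + 1)) ≠ .v j),
    Finset.sum_eq_single j, dl_self, dl_ne y (nv _ j),
    dl_ne y (by intro h; injection h : (Var.u j : Var e (s + 1)) ≠ .v j), Finset.sum_eq_zero]
  · ring
  · intro i _
    rw [dl_ne y (by intro h; injection h), mul_zero]
  · intro i _ hi
    rw [dl_ne y (by
        intro h
        injection h with h3
        exact hi h3 : (Var.v i : Var e (s + 1)) ≠ .v j),
      dl_ne y (by intro h; injection h : (Var.u i : Var e (s + 1)) ≠ .v j), dl_ne y (nv _ j)]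
    ring
  · intro h
    exact absurd (Finset.mem_univ _) h

private theorem pv_zero : pv e s 0 = .z := by
  rw [pv, dif_neg]
  intro h
  exact absurd h.1 (lt_irrefl _)

private theorem pv_succ (j : Fin e) : pv e s (j + 1) = .v j := by
  rw [pv, dif_pos ⟨Nat.succ_pos _, j.2⟩]
  rfl

/-- The chain of values. -/
private def seqY (y : Var e (s + 1) → L) (n : ℕ) : L :=
  if n % 2 = 0 then y (pv e s (n / 2)) else y (nextVar e s (n / 2))

private theorem seqY_even (j : ℕ) : seqY y (2 * j) = y (pv e s j) := by
  rw [seqY, if_pos (by omega), show 2 * j / 2 = j by omega]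

private theorem seqY_odd (j : ℕ) : seqY y (2 * j + 1) = y (nextVar e s j) := by
  rw [seqY, if_neg (by omega), show (2 * j + 1) / 2 = j by omega]

theorem chain_smooth {k : Type} [Field k] [Algebra k L] (m : ℕ) (hm : 3 ≤ m)
    (h1 : (m : k) ≠ 0) (h2 : ((m - 1 : ℕ) : k) ≠ 0) (τ : K)
    (hτ : Transcendental k (algebraMap K L τ))
    (hy : ∀ a, aeval y (pderiv a (chainPoly K e s m + C τ * X .z ^ m)) = 0) : y = 0 := by
  have hz := hy .z
  have hu := fun j => hy (.u j)
  have hv := fun j => hy (.v j)
  have hx := hy (.x 0)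
  have hxj := fun j => hy (.x j)
  simp only [d_z, d_u, d_v, d_x0] at hz hu hv hx
  have hm2 : m - 1 - 1 = m - 2 := by omega
  simp only [hm2] at hz hu hv hx
  have key := CR2.chain (k := k) (algebraMap K L τ) hτ m hm h1 h2 (2 * e + 1) (by omega) (seqY y)
    (by
      have e0 : seqY y 0 = y .z := by
        have := seqY_even y (e := e) (s := s) 0
        rwa [pv_zero] at this
      have e1 : seqY y 1 = y (nextVar e s 0) := seqY_odd y 0
      rw [e0, e1, ← hz]
      ring)
    (by
      intro i hi hi2
      rcases Nat.even_or_odd' i with ⟨j, rfl | rfl⟩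
      · obtain ⟨j, rfl⟩ : ∃ j', j = j' + 1 := ⟨j - 1, by omega⟩
        have e0 : 2 * (j + 1) - 1 = 2 * j + 1 := by omega
        have hje : j < e := by omega
        rw [e0, seqY_odd, seqY_even, seqY_odd, next_pos hje]
        have h3 := pv_succ (s := s) (⟨j, hje⟩ : Fin e)
        have h4 : pv e s (j + 1) = .v ⟨j, hje⟩ := h3
        rw [h4]
        exact hv ⟨j, hje⟩
      · have e0 : 2 * j + 1 - 1 = 2 * j := by omega
        have e1 : 2 * j + 1 + 1 = 2 * (j + 1) := by omega
        have hje : j < e := by omega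
        rw [e0, e1, seqY_odd, seqY_even, seqY_even, next_pos hje]
        have h4 : pv e s (j + 1) = .v ⟨j, hje⟩ := pv_succ (s := s) (⟨j, hje⟩ : Fin e)
        rw [h4]
        exact hu ⟨j, hje⟩)
    (by
      have e0 : 2 * e + 1 - 1 = 2 * e := by omega
      rw [e0, seqY_odd, seqY_even, next_neg (lt_irrefl e)]
      exact hx)
  funext a
  rcases a with _ | j | j | j
  · have h3 := key 0 (by omega)
    have h4 := seqY_even y (e := e) (s := s) 0
    rw [pv_zero] at h4
    rw [← h4]
    exact h3
  · have h3 := key (2 * j + 1) (by have := j.2; omega)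
    rw [seqY_odd, next_pos j.2] at h3
    exact h3
  · have h3 := key (2 * (j + 1)) (by have := j.2; omega)
    rw [seqY_even, pv_succ] at h3
    exact h3
  · by_cases hj : j = 0
    · subst hj
      have h3 := key (2 * e + 1) le_rfl
      rw [seqY_odd, next_neg (lt_irrefl e)] at h3
      exact h3
    · have h3 := hxj j
      rw [d_xj y m τ j hj] at h3
      have h4 : (m : L) ≠ 0 := by
        rw [← map_natCast (algebraMap k L)]
        exact (map_ne_zero _).2 h1
      exact (pow_eq_zero_iff (by omega)).1 ((mul_eq_zero.1 h3).resolve_left h4)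

end deriv

end

end Pool.Agent.Helper73.KP
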