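import Pool.Agent.Helper73.KP.Irr

/-!
Cones, and the maps between Chow groups.
-/

namespace Pool.Agent.Helper73.KP

open MvPolynomial Pool.Agent.Helper41.PP

noncomputable section

/-- A map of subvarieties which respects rational equivalence and whose image generates gives a
surjection of Chow groups. -/
theorem ch_map {σ κ σ' κ' : Type} [Field κ] [Field κ'] {w : σ → ℕ} {w' : σ' → ℕ}
    {J : Ideal (MvPolynomial σ κ)} {I : Ideal (MvPolynomial σ' κ')} {c c' : ℕ}
    (e : Sub w J c → Sub w' I c')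
    (he : ∀ r ∈ Rel w J c, Finsupp.mapDomain e r ∈ Rel w' I c')
    (hs : ∀ Q : Sub w' I c', Finsupp.single Q 1 ∈ Rel w' I c' ⊔
      Submodule.span ℚ {r | ∃ q : Sub w J c, r = Finsupp.single (e q) 1}) :
    ∃ φ : CH w J c →ₗ[ℚ] CH w' I c', Function.Surjective φ ∧ ∀ q, φ (cls q) = cls (e q) := by
  have hle0 : Rel w J c ≤ (Rel w' I c').comap (Finsupp.lmapDomain ℚ ℚ e) := by
    intro r hr
    rw [Submodule.mem_comap]
    exact he r hr
  let φ : CH w J c →ₗ[ℚ] CH w' I c' :=
    Submodule.mapQ _ _ (Finsupp.lmapDomain ℚ ℚ e) hle0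
  have hφ : ∀ q, φ (cls q) = cls (e q) := by
    intro q
    simp only [φ, cls]
    rw [Submodule.mkQ_apply, Submodule.mapQ_apply, Submodule.mkQ_apply]
    simp [Finsupp.lmapDomain_apply, Finsupp.mapDomain_single]
  refine ⟨φ, ?_, hφ⟩
  rw [← LinearMap.range_eq_top, eq_top_iff]
  have hle : (Rel w' I c' ⊔
      Submodule.span ℚ {r | ∃ q : Sub w J c, r = Finsupp.single (e q) 1}) ≤
      (LinearMap.range φ).comap (Rel w' I c').mkQ := by
    refine sup_le ?_ ?_
    · intro r hr
      rw [Submodule.mem_comap]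
      have : (Rel w' I c').mkQ r = 0 := by
        rw [Submodule.mkQ_apply, Submodule.Quotient.mk_eq_zero]
        exact hr
      rw [this]
      exact Submodule.zero_mem _
    · rw [Submodule.span_le]
      rintro r ⟨q, rfl⟩
      rw [SetLike.mem_coe, Submodule.mem_comap]
      exact ⟨cls q, hφ q⟩
  intro y _
  obtain ⟨y, rfl⟩ := Submodule.mkQ_surjective _ y
  have h1 : y ∈ Rel w' I c' ⊔
      Submodule.span ℚ {r | ∃ q : Sub w J c, r = Finsupp.single (e q) 1} :=
    mem_of_supp _ y (fun Q _ => hs Q)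
  exact hle h1

variable {σ κ : Type} [Field κ]

/-- On a cone, every subvariety is rationally equivalent to a combination of cones. -/
theorem cone_span [Finite σ] (w : Option σ → ℕ) (hw : ∀ i, 0 < w (some i))
    (J : Ideal (MvPolynomial σ κ)) (I : Ideal (MvPolynomial (Option σ) κ))
    (hI : I ≤ J.map (rn σ κ)) (c : ℕ) (hc : c ≤ Nat.card σ) (Q : Sub w I c)
    (hQ : J.map (rn σ κ) ≤ Q.ideal) :
    Finsupp.single Q 1 ∈ Rel w I c ⊔ Submodule.span ℚ {r | ∃ Q' : Sub w I c,
      Q'.ideal = (Q'.ideal.comap (rn σ κ)).map (rn σ κ) ∧ J ≤ Q'.ideal.comap (rn σ κ) ∧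
        r = Finsupp.single Q' 1} := by
  classical
  set S := Rel w I c ⊔ Submodule.span ℚ {r | ∃ Q' : Sub w I c,
      Q'.ideal = (Q'.ideal.comap (rn σ κ)).map (rn σ κ) ∧ J ≤ Q'.ideal.comap (rn σ κ) ∧
        r = Finsupp.single Q' 1} with hS
  have hι := rn_good σ κ w
  have hext : ∀ Q' : Sub w I c, Q'.ideal = (Q'.ideal.comap (rn σ κ)).map (rn σ κ) →
      J ≤ Q'.ideal.comap (rn σ κ) → Finsupp.single Q' 1 ∈ S := fun Q' h1 h2 =>
    Submodule.mem_sup_right (Submodule.subset_span ⟨Q', h1, h2, rfl⟩)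
  have hJQ : J ≤ Q.ideal.comap (rn σ κ) := Ideal.map_le_iff_le_comap.1 hQ
  by_cases hne : Q.ideal = (Q.ideal.comap (rn σ κ)).map (rn σ κ)
  · exact hext Q hne hJQ
  have hp : (Q.ideal.comap (rn σ κ)).IsPrime := Ideal.comap_isPrime (rn σ κ) Q.ideal
  have hh : (c : ℕ∞) = (Q.ideal.comap (rn σ κ)).height + 1 := by
    rw [← rn_height σ κ Q.ideal hne, Q.height]
  obtain ⟨H, hH⟩ : ∃ H, H = (Q.ideal.comap (rn σ κ)).height := ⟨_, rfl⟩
  rw [← hH] at hh
  obtain ⟨b, hbc⟩ : ∃ b, b + 1 = c := by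
    refine ⟨c - 1, ?_⟩
    have : c ≠ 0 := by
      intro h0
      rw [h0] at hh
      exact absurd hh.symm (by simp)
    omega
  have hb : (Q.ideal.comap (rn σ κ)).height = b := by
    rw [← hH]
    rw [← hbc] at hh
    have h1 : ((b : ℕ∞) + 1) = H + 1 := by
      rw [← hh]; push_cast; rfl
    exact ((ENat.add_left_injective_of_ne_top (ENat.natCast_ne_top 1)) h1).symm
  have hhom : HomId (fun i => w (some i)) (Q.ideal.comap (rn σ κ)) := by
    intro f hf d
    rw [Ideal.mem_comap] at hf ⊢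
    rw [hι.comp]
    exact Q.homog _ hf d
  -- a variable which is not in the contraction
  obtain ⟨j, hj⟩ : ∃ j : σ, (X j : MvPolynomial σ κ) ∉ Q.ideal.comap (rn σ κ) := by
    by_contra hcon
    push Not at hcon
    have h1 := card_le_height_irr σ κ _ hp hcon
    rw [hb] at h1
    have h2 : Nat.card σ ≤ b := by exact_mod_cast h1
    omega
  let P0 : Sub (fun i => w (some i)) J b := ⟨Q.ideal.comap (rn σ κ), hp, hhom, hJQ, hb⟩
  obtain ⟨e, he⟩ := exists_ext hι hI b
  have hP : (e P0).ideal = (Q.ideal.comap (rn σ κ)).map (rn σ κ) := he P0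
  obtain ⟨D, g, hg, hgq, hgn, hel⟩ := rn_elim σ κ w Q.ideal Q.homog hne
  have hgP : g ∉ (e P0).ideal := by rw [hP]; exact hgn
  have hjP : rn σ κ (X j) ∉ (e P0).ideal := by
    rw [hP]
    intro h
    apply hj
    have h1 : X j ∈ ((Q.ideal.comap (rn σ κ)).map (rn σ κ)).comap (rn σ κ) := h
    rwa [rn_comap] at h1
  have hXj : IsWeightedHomogeneous w (rn σ κ (X j : MvPolynomial σ κ)) (w (some j)) :=
    rn_whom w _ _ (isWeightedHomogeneous_X κ (fun i => w (some i)) j)
  have hPQ : (e P0).ideal ≤ Q.ideal := by rw [hP]; exact Ideal.map_comap_le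
  -- the components of a divisor on `P` whose contraction is larger are extended
  have hbig : ∀ Q' : Sub w I c, (e P0).ideal ≤ Q'.ideal →
      Q'.ideal.comap (rn σ κ) ≠ Q.ideal.comap (rn σ κ) → Finsupp.single Q' 1 ∈ S := by
    intro Q' hle hne'
    have h3 : Q.ideal.comap (rn σ κ) ≤ Q'.ideal.comap (rn σ κ) := by
      rw [← Ideal.map_le_iff_le_comap, ← hP]
      exact hle
    have hp' : (Q'.ideal.comap (rn σ κ)).IsPrime := Ideal.comap_isPrime (rn σ κ) Q'.ideal
    have h5 : Q.ideal.comap (rn σ κ) < Q'.ideal.comap (rn σ κ) :=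
      lt_of_le_of_ne h3 (fun h => hne' h.symm)
    have h6 := Ideal.height_add_one_le_of_lt_of_isPrime h5
    apply hext Q' _ (hJQ.trans h3)
    by_contra h7
    have h8 := rn_height σ κ Q'.ideal h7
    rw [Q'.height] at h8
    rw [hb] at h6
    have h9 : (((b + 1 : ℕ)) : ℕ∞) + 1 ≤ (c : ℕ∞) := by
      calc ((b + 1 : ℕ) : ℕ∞) + 1 ≤ (Q'.ideal.comap (rn σ κ)).height + 1 := by
            gcongr; push_cast; exact h6
        _ = (c : ℕ∞) := h8.symm
    have h10 : (((b + 1 + 1 : ℕ)) : ℕ∞) ≤ (c : ℕ∞) := by exact_mod_cast h9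
    have h11 : b + 1 + 1 ≤ c := by exact_mod_cast h10
    omega
  have hgw : g ^ w (some j) ∉ (e P0).ideal := fun h => hgP ((e P0).prime.mem_of_pow_mem _ h)
  have hjD : rn σ κ (X j) ^ D ∉ (e P0).ideal := fun h => hjP ((e P0).prime.mem_of_pow_mem _ h)
  obtain ⟨u, hu⟩ := exists_div hbc (e P0) _ hgw
  obtain ⟨v, hv⟩ := exists_div hbc (e P0) _ hjD
  have huv : u - v ∈ S := by
    apply Submodule.mem_sup_left
    apply Submodule.subset_span
    refine ⟨b, e P0, w (some j) * D, _, _, u, v, hbc, ?_, ?_, hgw, hjD, hu, hv, fun Q => by simp⟩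
    · simpa using hg.pow (w (some j))
    · have := hXj.pow D
      rw [mul_comm]
      simpa using this
  have hvS : v ∈ S := by
    apply mem_of_supp
    intro Q' hQ'
    obtain ⟨h1, h2⟩ := div_supp _ _ v hv Q' hQ'
    apply hbig Q' h1
    intro h3
    apply hj
    rw [← h3, Ideal.mem_comap]
    exact Q'.prime.mem_of_pow_mem _ h2
  have huS : u ∈ S := by
    have := Submodule.add_mem _ huv hvS
    simpa using this
  apply single_mem_of _ u huS Q
  · rw [(hu Q).1 hPQ]
    have h1 : 0 < mult (e P0).ideal Q.ideal (g ^ w (some j)) := by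
      apply mult_pos _ _ hPQ _ _ hgw
      · exact Ideal.pow_mem_of_mem _ hgq _ (hw j)
      · rw [Q.height, (e P0).height, ← hbc]; push_cast; exact le_refl _
    exact_mod_cast h1.ne'
  · intro Q' hQ' hr
    obtain ⟨h1, h2⟩ := div_supp _ _ u hu Q' hr
    have h2' : g ∈ Q'.ideal := Q'.prime.mem_of_pow_mem _ h2
    apply hbig Q' h1
    intro h4
    apply hQ'
    have h5 : Q.ideal ≤ Q'.ideal := hel Q'.ideal Q'.prime h2' h4
    have : Q.ideal.FiniteHeight := ⟨Or.inr (by rw [Q.height]; exact ENat.natCast_ne_top _)⟩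
    apply sub_ext
    exact (Ideal.eq_of_le_of_height_le Q.ideal h5 (by rw [Q.height, Q'.height])).symm

/-- The Chow groups of `X none * a + b = 0` are generated by the cones over `a = b = 0`. -/
theorem monoid_step [Finite σ] (w : Option σ → ℕ) (hw : ∀ i, 0 < w i)
    (a b : MvPolynomial σ κ) (m : ℕ) (hm : 0 < m)
    (ha : IsWeightedHomogeneous (fun i => w (some i)) a m)
    (hb : IsWeightedHomogeneous (fun i => w (some i)) b (w none + m)) (c : ℕ) (hc : 2 ≤ c)
    (hc' : c ≤ Nat.card σ) :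
    ∃ φ : CH (fun i => w (some i)) (Ideal.span {a, b}) c →ₗ[ℚ]
      CH w (Ideal.span {X none * rn σ κ a + rn σ κ b}) c, Function.Surjective φ ∧
      ∀ q, ∃ Q, Q.ideal = q.ideal.map (rn σ κ) ∧ φ (cls q) = cls Q := by
  have hι := rn_good σ κ w
  have hI : Ideal.span {X none * rn σ κ a + rn σ κ b} ≤ (Ideal.span {a, b}).map (rn σ κ) := by
    rw [Ideal.span_le, Set.singleton_subset_iff, SetLike.mem_coe]
    refine Ideal.add_mem _ (Ideal.mul_mem_left _ _ ?_) ?_
    · exact Ideal.mem_map_of_mem _ (Ideal.subset_span (by simp))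
    · exact Ideal.mem_map_of_mem _ (Ideal.subset_span (by simp))
  obtain ⟨e, he⟩ := exists_ext hι hI c
  obtain ⟨φ, h1, h2⟩ := ch_map e (fun r hr => push_rel hι hI e he r hr) (by
    intro Q
    have hI1 : ∀ q : Ideal (MvPolynomial σ κ), q.IsPrime → a ∉ q →
        Ideal.span {X none * rn σ κ a + rn σ κ b} ≤ Q0 b a q := by
      intro q _ _
      rw [Ideal.span_le, Set.singleton_subset_iff, SetLike.mem_coe, add_comm]
      exact Q0_gen b a q
    have hI2 : ∀ Q : Ideal (MvPolynomial (Option σ) κ), Q.IsPrime →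
        Ideal.span {X none * rn σ κ a + rn σ κ b} ≤ Q → rn σ κ a ∉ Q →
        rn σ κ b + X none * rn σ κ a ∈ Q := by
      intro Q _ h _
      rw [add_comm]
      exact h (Ideal.subset_span rfl)
    obtain ⟨c₀, rfl⟩ : ∃ c₀, c = c₀ + 1 := ⟨c - 1, by omega⟩
    have h1 := open_vanish w (Ideal.span {X none * rn σ κ a + rn σ κ b}) a b m hm hb ha hI1 hI2
      c₀ (by omega) Q
    refine (sup_le (a := Rel w (Ideal.span {X none * rn σ κ a + rn σ κ b}) (c₀ + 1))
      le_sup_left ?_) h1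
    rw [Submodule.span_le]
    rintro r ⟨Q', hQ', rfl⟩
    rw [SetLike.mem_coe]
    have h3 : (Ideal.span {a, b}).map (rn σ κ) ≤ Q'.ideal := by
      rw [Ideal.map_span, Ideal.span_le]
      rintro _ ⟨x, hx, rfl⟩
      rcases hx with rfl | hx
      · exact hQ'
      · rw [Set.mem_singleton_iff] at hx
        subst hx
        have h4 := Q'.le (Ideal.subset_span rfl)
        exact (Ideal.add_mem_iff_right _ (Ideal.mul_mem_left _ _ hQ')).1 h4
    have h5 := cone_span w (fun i => hw _) (Ideal.span {a, b}) _ hI (c₀ + 1) hc' Q' h3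
    refine (sup_le (a := Rel w (Ideal.span {X none * rn σ κ a + rn σ κ b}) (c₀ + 1))
      le_sup_left ?_) h5
    rw [Submodule.span_le]
    rintro r ⟨Q'', hext, hJ, rfl⟩
    rw [SetLike.mem_coe]
    apply Submodule.mem_sup_right
    apply Submodule.subset_span
    have hp'' : (Q''.ideal.comap (rn σ κ)).IsPrime := Ideal.comap_isPrime (rn σ κ) Q''.ideal
    refine ⟨⟨Q''.ideal.comap (rn σ κ), hp'', ?_, hJ, ?_⟩, ?_⟩
    · intro f hf d
      rw [Ideal.mem_comap] at hf ⊢
      rw [hι.comp]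
      exact Q''.homog _ hf d
    · let : Algebra (MvPolynomial σ κ) (MvPolynomial (Option σ) κ) := (rn σ κ).toAlgebra
      have : Module.Flat (MvPolynomial σ κ) (MvPolynomial (Option σ) κ) := hι.flat
      have h1 := height_map_flat (A := MvPolynomial σ κ) (B := MvPolynomial (Option σ) κ)
        (Q''.ideal.comap (rn σ κ)) Q''.ideal hext rfl
      rw [← h1, Q''.height]
    · congr 1
      apply sub_ext
      rw [he]
      exact hext)
  exact ⟨φ, h1, fun q => ⟨e q, he q, h2 q⟩⟩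

end

end Pool.Agent.Helper73.KP
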