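import Pool.Agent.Helper73.KP.Defs
import Pool.Agent.Helper49.KP.CountStep

/-!
The number of points: `z ≠ 0`: `t` is determined by `p`. `z = 0`: `v_0 ≠ 0`: `u_0` is
determined; `v_0 = 0`: induction on `e`. Homogeneity is not used.
-/

namespace Pool.Agent.Helper73.KP

open MvPolynomial

noncomputable section

/-- The three kinds of coordinates. -/
def sumE (e s : ℕ) : VarT e s ≃ (Fin e ⊕ Fin e) ⊕ Fin s where
  toFun
    | .u i => Sum.inl (Sum.inl i)
    | .v i => Sum.inl (Sum.inr i)
    | .x j => Sum.inr j
  invFun
    | Sum.inl (Sum.inl i) => .u i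
    | Sum.inl (Sum.inr i) => .v i
    | Sum.inr j => .x j
  left_inv := by
    rintro (i | i | j) <;> rfl
  right_inv := by
    rintro ((i | i) | j) <;> rfl

theorem count_finite (e s : ℕ) : Finite (VarT e s) := Finite.of_equiv _ (sumE e s).symm

theorem count_card (e s : ℕ) (κ : Type) [Finite κ] :
    Nat.card (VarT e s → κ) = Nat.card κ ^ (2 * e + s) := by
  rw [Nat.card_congr ((sumE e s).arrowCongr (Equiv.refl κ)), Nat.card_fun, Nat.card_sum,
    Nat.card_sum, Nat.card_fin, Nat.card_fin]
  congr 1
  omega

/-- A point is given by its coordinates `u 0`, `v 0` and the others. -/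
def splitE (e s : ℕ) (κ : Type) : (VarT (e + 1) s → κ) ≃ ((VarT e s → κ) × κ) × κ where
  toFun p := ((fun a => p ((shiftE e s).symm (some (some a))), p (.v 0)), p (.u 0))
  invFun y a := Option.elim (shiftE e s a) y.2 (fun b => Option.elim b y.1.2 y.1.1)
  left_inv := by
    intro p
    funext a
    rcases a with i | i | j
    · refine Fin.cases ?_ (fun i => ?_) i <;> rfl
    · refine Fin.cases ?_ (fun i => ?_) i <;> rfl
    · rfl
  right_inv := by
    rintro ⟨⟨p, v⟩, u⟩
    refine Prod.ext (Prod.ext (funext fun a => ?_) rfl) rfl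
    rcases a with i | i | j <;> rfl

theorem count_tower {κ : Type} [Field κ] [Finite κ] {s : ℕ} (F : (Fin s → κ) → κ) :
    ∀ (e : ℕ) (α : Fin e → ℕ), (∀ i, 0 < α i) → ∀ h : Fin e → (VarT e s → κ) → κ,
      (∀ i p p', (∀ a, LaterT i a → p a = p' a) → h i p = h i p') →
    (Nat.card κ : ℤ) * (Nat.card {p : VarT e s → κ //
      ∑ i, (p (.u i) * p (.v i) ^ α i + p (.v i) * h i p) + F (fun j => p (.x j)) = 0} : ℤ) =
      (Nat.card κ : ℤ) ^ (2 * e + s) - (Nat.card κ : ℤ) ^ (e + s) +
        (Nat.card κ : ℤ) ^ (e + 1) * Nat.card {x : Fin s → κ // F x = 0} := by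
  intro e
  induction e with
  | zero =>
    intro α hα h hh
    have h1 : Nat.card {p : VarT 0 s → κ //
        ∑ i, (p (.u i) * p (.v i) ^ α i + p (.v i) * h i p) + F (fun j => p (.x j)) = 0} =
        Nat.card {x : Fin s → κ // F x = 0} := by
      apply Nat.card_congr
      apply ((zeroE s).arrowCongr (Equiv.refl κ)).subtypeEquiv
      intro p
      rw [Finset.univ_eq_empty, Finset.sum_empty, zero_add]
      rfl
    rw [h1]
    ring
  | succ e ih =>
    intro α hα h hh
    have hfin := count_finite e s
    let ex : (VarT e s → κ) → κ → κ → (VarT (e + 1) s → κ) :=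
      fun p v u => (splitE e s κ).symm ((p, v), u)
    have hexu : ∀ p v u, ex p v u (.u 0) = u := fun p v u => rfl
    have hexv : ∀ p v u, ex p v u (.v 0) = v := fun p v u => rfl
    have hexus : ∀ p v u (i : Fin e), ex p v u (.u i.succ) = p (.u i) := fun p v u i => rfl
    have hexvs : ∀ p v u (i : Fin e), ex p v u (.v i.succ) = p (.v i) := fun p v u i => rfl
    have hexx : ∀ p v u (j : Fin s), ex p v u (.x j) = p (.x j) := fun p v u j => rfl
    -- the values do not depend on `u`, and those of `h i.succ` not on `v`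
    have h0 : ∀ p v u, h 0 (ex p v u) = h 0 (ex p v 0) := by
      intro p v u
      apply hh
      rintro (i | i | j) ha
      · revert ha
        refine Fin.cases ?_ (fun i => ?_) i
        · intro ha
          exact absurd ha (lt_irrefl (0 : Fin (e + 1)))
        · intro _
          rfl
      · revert ha
        refine Fin.cases ?_ (fun i => ?_) i
        · intro _
          rfl
        · intro _
          rfl
      · rfl
    have h1 : ∀ (i : Fin e) p v u, h i.succ (ex p v u) = h i.succ (ex p 0 0) := by
      intro i p v u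
      apply hh
      rintro (j | j | j) ha
      · revert ha
        refine Fin.cases ?_ (fun j => ?_) j
        · intro ha
          exact absurd ha (Fin.not_lt_zero _)
        · intro _
          rfl
      · revert ha
        refine Fin.cases ?_ (fun j => ?_) j
        · intro ha
          exact absurd (lt_of_lt_of_le (Fin.succ_pos i) ha) (lt_irrefl _)
        · intro _
          rfl
      · rfl
    let H : (VarT e s → κ) → κ → κ := fun p v => v * h 0 (ex p v 0) +
      (∑ i, (p (.u i) * p (.v i) ^ α i.succ + p (.v i) * h i.succ (ex p 0 0)) +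
        F (fun j => p (.x j)))
    have h2 : Nat.card {p : VarT (e + 1) s → κ //
        ∑ i, (p (.u i) * p (.v i) ^ α i + p (.v i) * h i p) + F (fun j => p (.x j)) = 0} =
        Nat.card {x : ((VarT e s → κ) × κ) × κ //
          x.2 * x.1.2 ^ α 0 + H x.1.1 x.1.2 = 0} := by
      apply Nat.card_congr
      symm
      apply (splitE e s κ).symm.subtypeEquiv
      rintro ⟨⟨p, v⟩, u⟩
      change u * v ^ α 0 + H p v = 0 ↔
        ∑ i, (ex p v u (.u i) * ex p v u (.v i) ^ α i + ex p v u (.v i) * h i (ex p v u)) +
          F (fun j => ex p v u (.x j)) = 0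
      rw [Fin.sum_univ_succ, hexu, hexv, h0]
      have h3 : ∑ i : Fin e, (ex p v u (.u i.succ) * ex p v u (.v i.succ) ^ α i.succ +
          ex p v u (.v i.succ) * h i.succ (ex p v u)) =
          ∑ i, (p (.u i) * p (.v i) ^ α i.succ + p (.v i) * h i.succ (ex p 0 0)) := by
        apply Finset.sum_congr rfl
        intro i _
        rw [hexus, hexvs, h1]
      rw [h3]
      have h4 : (fun j => ex p v u (.x j)) = fun j => p (.x j) := rfl
      rw [h4]
      change u * v ^ α 0 + (v * h 0 (ex p v 0) +
        (∑ i, (p (.u i) * p (.v i) ^ α i.succ + p (.v i) * h i.succ (ex p 0 0)) +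
        F (fun j => p (.x j)))) = 0 ↔ _
      rw [← add_assoc, ← add_assoc]
    rw [h2, Pool.Agent.Helper49.KP.count_step (α 0) (hα 0) H]
    have h5 : Nat.card {p : VarT e s → κ // H p 0 = 0} = Nat.card {p : VarT e s → κ //
        ∑ i, (p (.u i) * p (.v i) ^ α i.succ + p (.v i) * h i.succ (ex p 0 0)) +
        F (fun j => p (.x j)) = 0} := by
      apply Nat.card_congr
      apply (Equiv.refl _).subtypeEquiv
      intro p
      change (0 : κ) * h 0 (ex p 0 0) + _ = 0 ↔ _
      rw [zero_mul, zero_add]
      rfl
    have h6 := ih (fun i => α i.succ) (fun i => hα i.succ) (fun i p => h i.succ (ex p 0 0)) (by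
      intro i p p' hp
      apply hh
      rintro (j | j | j) ha
      · revert ha
        refine Fin.cases ?_ (fun j => ?_) j
        · intro _
          rfl
        · intro ha
          exact hp (.u j) (Fin.succ_lt_succ_iff.1 ha)
      · revert ha
        refine Fin.cases ?_ (fun j => ?_) j
        · intro _
          rfl
        · intro ha
          exact hp (.v j) (Fin.succ_le_succ_iff.1 ha)
      · exact hp (.x j) trivial)
    rw [h5, count_card]
    push_cast
    linear_combination (Nat.card κ : ℤ) * h6

/-- A point is given by its coordinate `z` and the others. -/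
def splitZ (e s : ℕ) (κ : Type) : (Var e s → κ) ≃ (VarT e s → κ) × κ where
  toFun p := (fun a => p ((zE e s).symm (some a)), p .z)
  invFun y a := Option.elim (zE e s a) y.2 y.1
  left_inv := by
    intro p
    funext a
    rcases a with _ | i | i | j <;> rfl
  right_inv := by
    rintro ⟨p, v⟩
    refine Prod.ext (funext fun a => ?_) rfl
    rcases a with i | i | j <;> rfl

theorem count {k : Type} [Field k] {e s : ℕ} (A : Family k e s) (κ : Type) [Field κ] [Finite κ]
    [Algebra k κ] :
    (Nat.card {p : (Var e s → κ) × κ // aeval p.1 A.poly + p.2 * p.1 .z ^ A.β = 0} : ℤ) =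
      (Nat.card κ : ℤ) ^ (2 * e + s + 1) - (Nat.card κ : ℤ) ^ (e + s) +
        (Nat.card κ : ℤ) ^ (e + 1) * Nat.card {x : Fin s → κ // aeval x A.f = 0} := by
  have hfin := count_finite e s
  have hβ : 0 < A.β := by
    rcases Nat.eq_zero_or_pos A.β with h | h
    · have h1 := A.β_deg
      rw [h, zero_mul] at h1
      exact absurd A.D_pos (by omega)
    · exact h
  let ex : (VarT e s → κ) → κ → (Var e s → κ) := fun p z => (splitZ e s κ).symm (p, z)
  let H : (VarT e s → κ) → κ → κ := fun p z => aeval (ex p z) A.poly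
  have h2 : Nat.card {p : (Var e s → κ) × κ // aeval p.1 A.poly + p.2 * p.1 .z ^ A.β = 0} =
      Nat.card {x : ((VarT e s → κ) × κ) × κ // x.2 * x.1.2 ^ A.β + H x.1.1 x.1.2 = 0} := by
    apply Nat.card_congr
    symm
    apply ((splitZ e s κ).symm.prodCongr (Equiv.refl κ)).subtypeEquiv
    rintro ⟨⟨p, z⟩, t⟩
    change t * z ^ A.β + aeval (ex p z) A.poly = 0 ↔ aeval (ex p z) A.poly + t * z ^ A.β = 0
    rw [add_comm]
  rw [h2, Pool.Agent.Helper49.KP.count_step A.β hβ H]
  have h5 : Nat.card {p : VarT e s → κ // H p 0 = 0} = Nat.card {p : VarT e s → κ //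
      ∑ i, (p (.u i) * p (.v i) ^ A.α i + p (.v i) * aeval (ex p 0) (A.h i)) +
        aeval (fun j => p (.x j)) A.f = 0} := by
    apply Nat.card_congr
    apply (Equiv.refl _).subtypeEquiv
    intro p
    change aeval (ex p 0) A.poly = 0 ↔ _
    have h3 : aeval (ex p 0) A.poly = ∑ i, (p (.u i) * p (.v i) ^ A.α i +
        p (.v i) * aeval (ex p 0) (A.h i)) + aeval (fun j => p (.x j)) A.f := by
      rw [Family.poly, map_add, map_add, map_mul, aeval_X, map_sum, aeval_rename]
      have h4 : ex p 0 .z = 0 := rfl
      rw [h4, zero_mul, zero_add]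
      have h6 : (ex p 0 ∘ Var.x) = fun j => p (.x j) := rfl
      rw [h6]
      congr 1
      apply Finset.sum_congr rfl
      intro i _
      rw [map_add, map_mul, map_mul, map_pow, aeval_X, aeval_X]
      rfl
    rw [h3]
    rfl
  have h6 := count_tower (fun x => aeval x A.f) e A.α A.α_pos
    (fun i p => aeval (ex p 0) (A.h i)) (by
      intro i p p' hp
      apply MvPolynomial.eval₂Hom_congr' rfl _ rfl
      intro a ha _
      have ha' := A.h_vars i a ha
      rcases a with _ | j | j | j
      · exact absurd ha' id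
      · exact hp (.u j) ha'
      · exact hp (.v j) ha'
      · exact hp (.x j) trivial)
  rw [h5, count_card, h6]
  push_cast
  ring

end

end Pool.Agent.Helper73.KP
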