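import Mathlib

/-!
The family of hypersurfaces.
-/

namespace Pool.Agent.Helper73.KP

open MvPolynomial

noncomputable section

/-- The coordinates `z`, `u i`, `v i` (`i < e`), `x j` (`j < s`). -/
inductive Var (e s : ℕ) : Type
  | z : Var e s
  | u : Fin e → Var e s
  | v : Fin e → Var e s
  | x : Fin s → Var e s

/-- The coordinates `v i`, `u j`, `v j` (`j > i`), `x j`. -/
def Later {e s : ℕ} (i : Fin e) : Var e s → Prop
  | .z => False
  | .u j => i < j
  | .v j => i ≤ j
  | .x _ => True

/-- The data of a pencil of hypersurfaces: positive weights `w`, exponents `α i > 0` and `β`,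
polynomials `f ≠ 0`, `h i`, `g`, such that `f`, `u_i v_i ^ (α i)`, `v_i h_i`, `z g` and `z ^ β` are
homogeneous of degree `D > 0`, and `h i` only contains the coordinates `v i`, `u j`, `v j`
(`j > i`), `x j`. -/
structure Family (k : Type) [Field k] (e s : ℕ) where
  w : Var e s → ℕ
  w_pos : ∀ a, 0 < w a
  D : ℕ
  D_pos : 0 < D
  α : Fin e → ℕ
  α_pos : ∀ i, 0 < α i
  α_deg : ∀ i, α i * w (.v i) + w (.u i) = D
  β : ℕ
  β_deg : β * w .z = D
  f : MvPolynomial (Fin s) k
  f_ne : f ≠ 0
  f_deg : IsWeightedHomogeneous (fun j => w (.x j)) f D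
  h : Fin e → MvPolynomial (Var e s) k
  h_vars : ∀ i, ∀ a ∈ (h i).vars, Later i a
  h_deg : ∀ i, IsWeightedHomogeneous w (X (.v i) * h i) D
  g : MvPolynomial (Var e s) k
  g_deg : IsWeightedHomogeneous w (X .z * g) D

/-- `z g + ∑ (u_i v_i ^ α_i + v_i h_i) + f`. -/
def Family.poly {k : Type} [Field k] {e s : ℕ} (A : Family k e s) : MvPolynomial (Var e s) k :=
  X .z * A.g + ∑ i, (X (.u i) * X (.v i) ^ A.α i + X (.v i) * A.h i) + rename .x A.f

/-- The other generator of the pencil, `z ^ β`. -/
def Family.G {k : Type} [Field k] {e s : ℕ} (A : Family k e s) : MvPolynomial (Var e s) k :=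
  X Var.z ^ A.β

/-- The coordinates without `z`. -/
inductive VarT (e s : ℕ) : Type
  | u : Fin e → VarT e s
  | v : Fin e → VarT e s
  | x : Fin s → VarT e s

/-- The coordinates `v i`, `u j`, `v j` (`j > i`), `x j`. -/
def LaterT {e s : ℕ} (i : Fin e) : VarT e s → Prop
  | .u j => i < j
  | .v j => i ≤ j
  | .x _ => True

/-- The polynomial in the hyperplane `z = 0`. -/
def polyT {k : Type} [Field k] {e s : ℕ} (α : Fin e → ℕ) (h : Fin e → MvPolynomial (VarT e s) k)
    (f : MvPolynomial (Fin s) k) : MvPolynomial (VarT e s) k :=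
  ∑ i, (X (.u i) * X (.v i) ^ α i + X (.v i) * h i) + rename .x f

/-- `u 0 ↦ none`, `v 0 ↦ some none`. -/
def shiftE (e s : ℕ) : VarT (e + 1) s ≃ Option (Option (VarT e s)) where
  toFun
    | .u i => Fin.cases none (fun j => some (some (.u j))) i
    | .v i => Fin.cases (some none) (fun j => some (some (.v j))) i
    | .x j => some (some (.x j))
  invFun
    | none => .u 0
    | some none => .v 0
    | some (some (.u i)) => .u i.succ
    | some (some (.v i)) => .v i.succ
    | some (some (.x j)) => .x j
  left_inv := by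
    rintro (i | i | j)
    · refine Fin.cases ?_ (fun i => ?_) i <;> rfl
    · refine Fin.cases ?_ (fun i => ?_) i <;> rfl
    · rfl
  right_inv := by
    rintro (_ | _ | i | i | j) <;> rfl

/-- `z ↦ none`. -/
def zE (e s : ℕ) : Var e s ≃ Option (VarT e s) where
  toFun
    | .z => none
    | .u i => some (.u i)
    | .v i => some (.v i)
    | .x j => some (.x j)
  invFun
    | none => .z
    | some (.u i) => .u i
    | some (.v i) => .v i
    | some (.x j) => .x j
  left_inv := by
    rintro (_ | i | i | j) <;> rfl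
  right_inv := by
    rintro (_ | i | i | j) <;> rfl

/-- `x j ↦ j`. -/
def zeroE (s : ℕ) : VarT 0 s ≃ Fin s where
  toFun
    | .u i => i.elim0
    | .v i => i.elim0
    | .x j => j
  invFun j := .x j
  left_inv := by
    rintro (i | i | j)
    · exact i.elim0
    · exact i.elim0
    · rfl
  right_inv _ := rfl

end

end Pool.Agent.Helper73.KP
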