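import Pool.Agent.Helper41.PP.Final
import Pool.Agent.Helper73.KP.Chain

/-!
The generic member of the pencil of a chain form is smooth: the only common zero of its partial
derivatives is the origin (by Euler's relation, as `m` is nonzero in `k`, this is the Jacobian
criterion).
-/

namespace Pool.Agent.Helper73.KP

open MvPolynomial Pool.Agent.Helper41.PP

theorem smooth (k : Type) [Field k] (e s m : ℕ) (hm : 3 ≤ m) (h1 : (m : k) ≠ 0)
    (h2 : ((m - 1 : ℕ) : k) ≠ 0) (L : Type) [Field L] [Algebra (RatFunc k) L]
    (y : Var e (s + 1) → L)
    (hy : ∀ a, aeval y (pderiv a (member (chainFamily k e s m (by omega)).poly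
      (X .z ^ (chainFamily k e s m (by omega)).β))) = 0) : y = 0 := by
  let : Algebra k L := ((algebraMap (RatFunc k) L).comp (algebraMap k (RatFunc k))).toAlgebra
  have : IsScalarTower k (RatFunc k) L := IsScalarTower.of_algebraMap_eq' rfl
  apply chain_smooth (K := RatFunc k) (k := k) y m hm h1 h2 RatFunc.X
  · exact (transcendental_algebraMap_iff (algebraMap (RatFunc k) L).injective).2
      RatFunc.transcendental_X
  · intro a
    have h3 := hy a
    have h4 : member (chainFamily k e s m (by omega)).poly
        (X .z ^ (chainFamily k e s m (by omega)).β) =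
        chainPoly (RatFunc k) e s m + C RatFunc.X * X .z ^ m := by
      rw [chainFamily_poly, member, toK, map_chainPoly, map_pow, map_X]
      rfl
    rw [h4] at h3
    exact h3

end Pool.Agent.Helper73.KP
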