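import Pool.Agent.Helper73.KP.Asm
import Pool.Agent.Helper73.KP.Count
import Pool.Agent.Helper73.KP.Smooth

/-!
The theorem.
-/

namespace Pool.Agent.Helper73.KP

open MvPolynomial Pool.Agent.Helper41.PP

noncomputable section

/-- The equation `z g + ∑ (u_i v_i ^ α_i + v_i h_i) + f + t z ^ β` over `k(t)`. -/
def Family.eqn {k : Type} [Field k] {e s : ℕ} (A : Family k e s) :
    MvPolynomial (Var e s) (RatFunc k) := member A.poly A.G

/-- The ideal of the hypersurface over `k(t)`. -/
def Family.ideal {k : Type} [Field k] {e s : ℕ} (A : Family k e s) :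
    Ideal (MvPolynomial (Var e s) (RatFunc k)) := Ideal.span {A.eqn}

/-- The weights of the coordinates `x j`. -/
def Family.wx {k : Type} [Field k] {e s : ℕ} (A : Family k e s) : Fin s → ℕ :=
  fun j => A.w (.x j)

/-- The ideal over `k(t)` of the cone over `V(q)` with vertex `z = v = x = 0`: it is generated by
`q`, `z` and the `v i`. -/
def coneK {k : Type} [Field k] {e s : ℕ} (q : Ideal (MvPolynomial (Fin s) k)) :
    Ideal (MvPolynomial (Var e s) (RatFunc k)) :=
  extK (q.map (rename Var.x : MvPolynomial (Fin s) k →ₐ[k] MvPolynomial (Var e s) k).toRingHom ⊔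
    Ideal.span (insert (X Var.z) (Set.range fun i => X (Var.v i))))

/-- There is a surjective linear map from the Chow group of `V(I)` in codimension `c` to the Chow
group of `V(I')` in codimension `c'` which sends the class of each subvariety `V(q)` to the class
of the subvariety `V(T q)`. -/
def SurjectsBy {σ κ σ' κ' : Type} [Field κ] [Field κ'] (w : σ → ℕ) (I : Ideal (MvPolynomial σ κ))
    (c : ℕ) (w' : σ' → ℕ) (I' : Ideal (MvPolynomial σ' κ')) (c' : ℕ)
    (T : Ideal (MvPolynomial σ κ) → Ideal (MvPolynomial σ' κ')) : Prop :=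
  ∃ φ : Chow w I c →ₗ[ℚ] Chow w' I' c', Function.Surjective φ ∧
    ∀ q : Sub w I c, ∃ Q : Sub w' I' c', Q.ideal = T q.ideal ∧ φ (cycleClass q) = cycleClass Q

/-- The rank of the Chow group of `V(I)` in codimension `c` is at most one. -/
def RankLeOne {σ κ : Type} [Field κ] (w : σ → ℕ) (I : Ideal (MvPolynomial σ κ)) (c : ℕ) : Prop :=
  Module.rank ℚ (Chow w I c) ≤ 1

/-- The number of `(p, t)` with coordinates in `κ` and `poly p + t z ^ β = 0`. -/
def Family.count {k : Type} [Field k] {e s : ℕ} (A : Family k e s) (κ : Type) [Field κ]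
    [Algebra k κ] : ℕ :=
  Nat.card {p : (Var e s → κ) × κ // aeval p.1 A.poly + p.2 * p.1 .z ^ A.β = 0}

/-- The number of zeros of `f` with coordinates in `κ`. -/
def zeros {k : Type} [Field k] {s : ℕ} (f : MvPolynomial (Fin s) k) (κ : Type) [Field κ]
    [Algebra k κ] : ℕ :=
  Nat.card {x : Fin s → κ // aeval x f = 0}

/-- The origin is the only common zero of the partial derivatives of `F`, over any extension
field. -/
def IsSmooth {σ K : Type} [Field K] (F : MvPolynomial σ K) : Prop :=
  ∀ (L : Type) [Field L] [Algebra K L] (y : σ → L), (∀ a, aeval y (pderiv a F) = 0) → y = 0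

theorem ideal_eq {k : Type} [Field k] {e s : ℕ} (A : Family k e s) :
    A.ideal = pencilI ⊥ A.poly A.G := by
  rw [Family.ideal, pencilI, Ideal.map_bot, bot_sup_eq]
  rfl

theorem final (k : Type) [Field k] (e s : ℕ) (A : Family k e s) :
    (∀ c, 1 ≤ c → c ≤ s → SurjectsBy A.wx (Ideal.span {A.f}) c A.w A.ideal (c + e + 1) coneK) ∧
    (∀ c, 2 ≤ c → c ≤ 2 * e + s → (c ≤ e + 1 ∨ e + s + 1 ≤ c) → RankLeOne A.w A.ideal c) ∧
    (∀ (κ : Type) [Field κ] [Finite κ] [Algebra k κ], (A.count κ : ℤ) =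
      (Nat.card κ : ℤ) ^ (2 * e + s + 1) - (Nat.card κ : ℤ) ^ (e + s) +
        (Nat.card κ : ℤ) ^ (e + 1) * zeros A.f κ) := by
  refine ⟨?_, ?_, ?_⟩
  · intro c h1 h2
    rw [ideal_eq]
    exact fam_onto A c h1 h2
  · intro c h1 h2 h3
    rw [ideal_eq]
    exact fam_rank A c h1 h2 h3
  · intro κ _ _ _
    exact count A κ

theorem final_smooth (k : Type) [Field k] (e s m : ℕ) (hm : 3 ≤ m) (h1 : (m : k) ≠ 0)
    (h2 : ((m - 1 : ℕ) : k) ≠ 0) : IsSmooth (chainFamily k e s m (by omega)).eqn := by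
  intro L _ _ y hy
  exact smooth k e s m hm h1 h2 L y hy

end

end Pool.Agent.Helper73.KP
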