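import Pool.Agent.Helper73.KP.Step

/-!
Renaming of the variables.
-/

namespace Pool.Agent.Helper73.KP

open MvPolynomial Pool.Agent.Helper41.PP

noncomputable section

private theorem ren_comp {α β κ : Type} [Field κ] (e : α ≃ β) (w : β → ℕ) (d : ℕ)
    (f : MvPolynomial α κ) :
    rename e (weightedHomogeneousComponent (fun i => w (e i)) d f) =
      weightedHomogeneousComponent w d (rename e f) := by
  classical
  have hw : ∀ t : α →₀ ℕ, Finsupp.weight w (t.mapDomain e) =
      Finsupp.weight (fun i => w (e i)) t := by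
    intro t
    rw [Finsupp.weight_apply, Finsupp.weight_apply, Finsupp.sum_mapDomain_index]
    · intro b; simp
    · intro b m n; simp [add_mul]
  ext u
  obtain ⟨t, rfl⟩ : ∃ t : α →₀ ℕ, t.mapDomain e = u := by
    refine ⟨u.mapDomain e.symm, ?_⟩
    rw [← Finsupp.mapDomain_comp]
    simp
  rw [coeff_rename_mapDomain _ e.injective, coeff_weightedHomogeneousComponent,
    coeff_weightedHomogeneousComponent, coeff_rename_mapDomain _ e.injective, hw]

private theorem ren_good {α β κ : Type} [Field κ] (e : α ≃ β) (w : β → ℕ) :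
    GoodExt (fun i => w (e i)) w
      (rename e : MvPolynomial α κ →ₐ[κ] MvPolynomial β κ).toRingHom := by
  have hb : Function.Bijective
      (rename e : MvPolynomial α κ →ₐ[κ] MvPolynomial β κ).toRingHom :=
    (renameEquiv κ e).toRingEquiv.bijective
  refine ⟨RingHom.Flat.of_bijective hb, ?_, ?_, ?_⟩
  · intro q hq
    exact Ideal.map_isPrime_of_equiv
      (renameEquiv κ e : MvPolynomial α κ ≃ₐ[κ] MvPolynomial β κ).toRingEquiv
  · intro q _
    exact Ideal.comap_map_of_bijective _ hb
  · intro d f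
    exact ren_comp e w d f

theorem transport {σ τ κ : Type} [Finite σ] [Finite τ] [Field κ] (ε : σ ≃ τ) (w : τ → ℕ)
    (I : Ideal (MvPolynomial σ κ)) (I' : Ideal (MvPolynomial τ κ))
    (hI : I' = I.map (rename ε : MvPolynomial σ κ →ₐ[κ] MvPolynomial τ κ).toRingHom) (c : ℕ) :
    ∃ φ : CH (fun i => w (ε i)) I c →ₗ[ℚ] CH w I' c, Function.Surjective φ ∧
      ∀ q, ∃ Q, Q.ideal = q.ideal.map (rename ε : MvPolynomial σ κ →ₐ[κ]
        MvPolynomial τ κ).toRingHom ∧ φ (cls q) = cls Q := by
  obtain ⟨ι, hιd⟩ : ∃ ι, ι = (rename ε : MvPolynomial σ κ →ₐ[κ]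
    MvPolynomial τ κ).toRingHom := ⟨_, rfl⟩
  rw [← hιd] at hI ⊢
  have hι : GoodExt (fun i => w (ε i)) w ι := by
    rw [hιd]
    exact ren_good ε w
  have hb : Function.Bijective ι := by
    rw [hιd]
    exact (renameEquiv κ ε).toRingEquiv.bijective
  obtain ⟨e, he⟩ := exists_ext hι hI.le c
  obtain ⟨φ, h1, h2⟩ := ch_map e (fun r hr => push_rel hι hI.le e he r hr) (by
    intro Q
    apply Submodule.mem_sup_right
    apply Submodule.subset_span
    have hext : Q.ideal = (Q.ideal.comap ι).map ι :=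
      (Ideal.map_comap_of_surjective _ hb.surjective _).symm
    have hp : (Q.ideal.comap ι).IsPrime := Ideal.comap_isPrime ι Q.ideal
    refine ⟨⟨Q.ideal.comap ι, hp, ?_, ?_, ?_⟩, ?_⟩
    · intro f hf d
      rw [Ideal.mem_comap] at hf ⊢
      rw [hι.comp]
      exact Q.homog _ hf d
    · rw [← Ideal.map_le_iff_le_comap, ← hI]
      exact Q.le
    · let : Algebra (MvPolynomial σ κ) (MvPolynomial τ κ) := ι.toAlgebra
      have : Module.Flat (MvPolynomial σ κ) (MvPolynomial τ κ) := hι.flat
      have h1 := height_map_flat (A := MvPolynomial σ κ) (B := MvPolynomial τ κ)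
        (Q.ideal.comap ι) Q.ideal hext rfl
      rw [← h1, Q.height]
    · congr 1
      apply sub_ext
      rw [he]
      exact hext)
  exact ⟨φ, h1, fun q => ⟨e q, he q, h2 q⟩⟩

end

end Pool.Agent.Helper73.KP
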