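import Pool.Agent.Helper73.KP.Vars
import Pool.Agent.Helper73.KP.Transport

/-!
Induction on the number of steps.
-/

namespace Pool.Agent.Helper73.KP

open MvPolynomial Pool.Agent.Helper41.PP

noncomputable section

variable {k : Type} [Field k]

/-- `φ` maps the class of `q` to the class of the subvariety with ideal `T q`. -/
def Onto {σ κ σ' κ' : Type} [Field κ] [Field κ'] (w : σ → ℕ) (I : Ideal (MvPolynomial σ κ))
    (c : ℕ) (w' : σ' → ℕ) (I' : Ideal (MvPolynomial σ' κ')) (c' : ℕ)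
    (T : Ideal (MvPolynomial σ κ) → Ideal (MvPolynomial σ' κ')) : Prop :=
  ∃ φ : CH w I c →ₗ[ℚ] CH w' I' c', Function.Surjective φ ∧
    ∀ q : Sub w I c, ∃ Q : Sub w' I' c', Q.ideal = T q.ideal ∧ φ (cls q) = cls Q

theorem Onto.trans {σ κ σ' κ' σ'' κ'' : Type} [Field κ] [Field κ'] [Field κ''] {w : σ → ℕ}
    {I : Ideal (MvPolynomial σ κ)} {c : ℕ} {w' : σ' → ℕ} {I' : Ideal (MvPolynomial σ' κ')}
    {c' : ℕ} {w'' : σ'' → ℕ} {I'' : Ideal (MvPolynomial σ'' κ'')} {c'' : ℕ}
    {T : Ideal (MvPolynomial σ κ) → Ideal (MvPolynomial σ' κ')}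
    {T' : Ideal (MvPolynomial σ' κ') → Ideal (MvPolynomial σ'' κ'')}
    (h : Onto w I c w' I' c' T) (h' : Onto w' I' c' w'' I'' c'' T') :
    Onto w I c w'' I'' c'' (fun q => T' (T q)) := by
  obtain ⟨φ, h1, h2⟩ := h
  obtain ⟨φ', h1', h2'⟩ := h'
  refine ⟨φ'.comp φ, h1'.comp h1, fun q => ?_⟩
  obtain ⟨Q, hQ, hq⟩ := h2 q
  obtain ⟨Q', hQ', hq'⟩ := h2' Q
  exact ⟨Q', by rw [hQ', hQ], by rw [LinearMap.comp_apply, hq, hq']⟩

theorem Onto.rank_le {σ κ σ' κ' : Type} [Field κ] [Field κ'] {w : σ → ℕ}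
    {I : Ideal (MvPolynomial σ κ)} {c : ℕ} {w' : σ' → ℕ} {I' : Ideal (MvPolynomial σ' κ')}
    {c' : ℕ} {T : Ideal (MvPolynomial σ κ) → Ideal (MvPolynomial σ' κ')}
    (h : Onto w I c w' I' c' T) :
    Module.rank ℚ (CH w' I' c') ≤ Module.rank ℚ (CH w I c) := by
  obtain ⟨φ, h1, -⟩ := h
  exact LinearMap.rank_le_of_surjective φ h1

theorem Onto.congr {σ κ σ' κ' : Type} [Field κ] [Field κ'] {w : σ → ℕ}
    {I : Ideal (MvPolynomial σ κ)} {c : ℕ} {w' : σ' → ℕ} {I' : Ideal (MvPolynomial σ' κ')}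
    {c' : ℕ} {T T' : Ideal (MvPolynomial σ κ) → Ideal (MvPolynomial σ' κ')}
    (h : Onto w I c w' I' c' T) (hT : ∀ q, T q = T' q) : Onto w I c w' I' c' T' := by
  obtain ⟨φ, h1, h2⟩ := h
  refine ⟨φ, h1, fun q => ?_⟩
  obtain ⟨Q, hQ, hq⟩ := h2 q
  exact ⟨Q, hQ.trans (hT _), hq⟩

/-- The ideal of the cone over `V(q)` in `z = 0`. -/
def joinT {e s : ℕ} (q : Ideal (MvPolynomial (Fin s) k)) : Ideal (MvPolynomial (VarT e s) k) :=
  q.map (rename VarT.x : MvPolynomial (Fin s) k →ₐ[k] MvPolynomial (VarT e s) k).toRingHom ⊔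
    Ideal.span (Set.range fun i => X (VarT.v i))

theorem joinT_succ {e s : ℕ} (q : Ideal (MvPolynomial (Fin s) k)) :
    (((joinT q : Ideal (MvPolynomial (VarT e s) k)).map (rn _ k)).map (rn _ k) ⊔
      Ideal.span {X (some none)}).map (rename (shiftE e s).symm :
        MvPolynomial (Option (Option (VarT e s))) k →ₐ[k] MvPolynomial (VarT (e + 1) s) k).toRingHom
      = joinT q := by
  have hX : ∀ o, (rename (shiftE e s).symm :
        MvPolynomial (Option (Option (VarT e s))) k →ₐ[k] MvPolynomial (VarT (e + 1) s) k).toRingHom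
        (X o) = X ((shiftE e s).symm o) := fun o => rename_X _ _
  have hcomp : ((rename (shiftE e s).symm :
        MvPolynomial (Option (Option (VarT e s))) k →ₐ[k]
          MvPolynomial (VarT (e + 1) s) k).toRingHom.comp (rn _ k)).comp (rn _ k) =
      (rename (fun a => (shiftE e s).symm (some (some a))) :
        MvPolynomial (VarT e s) k →ₐ[k] MvPolynomial (VarT (e + 1) s) k).toRingHom := by
    apply MvPolynomial.ringHom_ext
    · intro r
      rw [RingHom.comp_apply, RingHom.comp_apply, rn_C, rn_C]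
      exact (rename_C _ _).trans (rename_C _ _).symm
    · intro i
      rw [RingHom.comp_apply, RingHom.comp_apply, rn_X, rn_X, hX]
      exact (rename_X (R := k) (fun a => (shiftE e s).symm (some (some a))) i).symm
  have hcomp2 : ((rename (fun a => (shiftE e s).symm (some (some a))) :
        MvPolynomial (VarT e s) k →ₐ[k] MvPolynomial (VarT (e + 1) s) k).toRingHom).comp
        (rename VarT.x : MvPolynomial (Fin s) k →ₐ[k] MvPolynomial (VarT e s) k).toRingHom =
      (rename VarT.x : MvPolynomial (Fin s) k →ₐ[k] MvPolynomial (VarT (e + 1) s) k).toRingHom := by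
    apply RingHom.ext
    intro p
    exact rename_rename VarT.x (fun a => (shiftE e s).symm (some (some a))) p
  rw [joinT, joinT, Ideal.map_sup, Ideal.map_map, Ideal.map_map, hcomp,
    Ideal.map_sup, Ideal.map_map, hcomp2, Ideal.map_span, Ideal.map_span, Set.image_singleton,
    hX, sup_assoc, ← Ideal.span_union]
  congr 2
  ext p
  constructor
  · rintro (⟨_, ⟨i, rfl⟩, rfl⟩ | hp)
    · exact ⟨i.succ, (rename_X (R := k) (fun a => (shiftE e s).symm (some (some a)))
        (.v i)).symm⟩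
    · rw [Set.mem_singleton_iff] at hp
      exact ⟨0, hp.symm⟩
  · rintro ⟨i, rfl⟩
    refine Fin.cases ?_ (fun j => ?_) i
    · exact Or.inr rfl
    · exact Or.inl ⟨X (.v j), ⟨j, rfl⟩,
        rename_X (R := k) (fun a => (shiftE e s).symm (some (some a))) (.v j)⟩

/-- What is proved by induction. -/
structure Good {e s : ℕ} (w : VarT e s → ℕ) (p : MvPolynomial (VarT e s) k)
    (f : MvPolynomial (Fin s) k) : Prop where
  ne : p ≠ 0
  onto : ∀ c, 1 ≤ c → c ≤ s → Onto (fun j => w (.x j)) (Ideal.span {f}) c w (Ideal.span {p})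
    (c + e) joinT
  low : ∀ c, 1 ≤ c → c ≤ e → Module.rank ℚ (CH w (Ideal.span {p}) c) ≤ 1
  high : ∀ c, e + s ≤ c → c ≤ 2 * e + s → Module.rank ℚ (CH w (Ideal.span {p}) c) ≤ 1

theorem good_zero {s : ℕ} (w : VarT 0 s → ℕ) (hw : ∀ a, 0 < w a) (α : Fin 0 → ℕ)
    (h : Fin 0 → MvPolynomial (VarT 0 s) k) (f : MvPolynomial (Fin s) k) (hf : f ≠ 0) :
    Good w (polyT α h f) f := by
  have hp : polyT α h f = rename VarT.x f := by
    rw [polyT]
    simp
  have hT : ∀ q : Ideal (MvPolynomial (Fin s) k),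
      q.map (rename (zeroE s).symm : MvPolynomial (Fin s) k →ₐ[k]
        MvPolynomial (VarT 0 s) k).toRingHom = joinT q := by
    intro q
    rw [joinT]
    have h1 : Set.range (fun i : Fin 0 => (X (VarT.v i) : MvPolynomial (VarT 0 s) k)) = ∅ :=
      Set.range_eq_empty _
    rw [h1, Ideal.span_empty, sup_bot_eq]
    rfl
  refine ⟨?_, ?_, ?_, ?_⟩
  · rw [hp]
    intro h0
    apply hf
    have hinj : Function.Injective (VarT.x : Fin s → VarT 0 s) := by
      intro a b hab
      injection hab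
    exact rename_injective _ hinj (by rw [h0, map_zero])
  · intro c _ _
    obtain ⟨φ, h1, h2⟩ := transport (zeroE s).symm w (Ideal.span {f})
      (Ideal.span {polyT α h f}) (by
        rw [Ideal.map_span, Set.image_singleton, hp]
        rfl) c
    refine ⟨φ, h1, fun q => ?_⟩
    obtain ⟨Q, hQ, hq⟩ := h2 q
    exact ⟨Q, by rw [hQ, hT], hq⟩
  · intro c h1 h2
    omega
  · intro c h1 h2
    have hc : c = Nat.card (VarT 0 s) := by
      rw [card_varT]
      omega
    subst hc
    exact rank_le_one (fun Q Q' => by rw [sub_card hw Q, sub_card hw Q'])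

theorem good_succ {e s : ℕ} (w : VarT (e + 1) s → ℕ) (hw : ∀ a, 0 < w a) (D : ℕ)
    (p : MvPolynomial (VarT (e + 1) s) k) (α : ℕ) (hα : 0 < α)
    (hαD : α * w (.v 0) + w (.u 0) = D) (h₀ : MvPolynomial (Option (VarT e s)) k)
    (hh₀ : IsWeightedHomogeneous (fun a => w ((shiftE e s).symm (some a))) (X none * h₀) D)
    (p' : MvPolynomial (VarT e s) k) (hp : rename (shiftE e s) p = stepPoly α h₀ p')
    (f : MvPolynomial (Fin s) k)
    (hp' : IsWeightedHomogeneous (fun a => w ((shiftE e s).symm (some (some a)))) p' D)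
    (ih : Good (fun a => w ((shiftE e s).symm (some (some a)))) p' f) : Good w p f := by
  set ε := (shiftE e s).symm with hε
  have hpε : p = rename ε (stepPoly α h₀ p') := by
    rw [← hp, rename_rename]
    have : (ε : _ → _) ∘ (shiftE e s) = id := by
      funext a
      exact (shiftE e s).symm_apply_apply a
    rw [this, rename_id, AlgHom.id_apply]
  have hirr := step_irreducible α h₀ p' ih.ne
  have hw' : ∀ i, 0 < w (ε i) := fun i => hw _
  have hDv : w (ε (some none)) ≤ D := by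
    have h1 : w (ε (some none)) = w (.v 0) := rfl
    rw [h1, ← hαD]
    calc w (.v 0) = 1 * w (.v 0) := (one_mul _).symm
      _ ≤ α * w (.v 0) := Nat.mul_le_mul_right _ hα
      _ ≤ _ := Nat.le_add_right _ _
  have hh : IsWeightedHomogeneous (fun i => w (ε (some i))) h₀ (D - w (ε (some none))) :=
    whom_of_mul (fun i => w (ε (some i))) D none hDv h₀ hh₀
  have hspan : Ideal.span {p} = (Ideal.span {stepPoly α h₀ p'}).map
      (rename ε : MvPolynomial _ k →ₐ[k] MvPolynomial _ k).toRingHom := by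
    rw [Ideal.map_span, Set.image_singleton, hpε]
    rfl
  have htr : ∀ c, Onto (fun i => w (ε i)) (Ideal.span {stepPoly α h₀ p'}) c w (Ideal.span {p}) c
      (fun q => q.map (rename ε : MvPolynomial _ k →ₐ[k] MvPolynomial _ k).toRingHom) :=
    fun c => transport ε w _ _ hspan c
  have hkn : ∀ c, 1 ≤ c → c ≤ 2 * e + s → Onto (fun i => w (ε (some (some i))))
      (Ideal.span {p'}) c (fun i => w (ε i)) (Ideal.span {stepPoly α h₀ p'}) (c + 1)
      (fun q => (q.map (rn _ k)).map (rn _ k) ⊔ Ideal.span {X (some none)}) := by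
    intro c h1 h2
    exact knorrer (fun i => w (ε i)) hw' D α (D - w (ε (some none))) p' h₀ hp' hh
      (Nat.sub_add_cancel hDv) hα hαD c h1 (by rw [card_varT]; exact h2)
  refine ⟨?_, ?_, ?_, ?_⟩
  · rw [hpε]
    intro h0
    exact hirr.ne_zero (rename_injective _ ε.injective (by rw [h0, map_zero]))
  · intro c h1 h2
    obtain ⟨φ, h3, h4⟩ := ((ih.onto c h1 h2).trans (hkn (c + e) (by omega) (by omega))).trans
      (htr (c + e + 1))
    refine ⟨φ, h3, fun q => ?_⟩
    obtain ⟨Q, hQ, hq⟩ := h4 q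
    exact ⟨Q, hQ.trans (joinT_succ q.ideal), hq⟩
  · intro c h1 h2
    rcases Nat.eq_or_lt_of_le h1 with h3 | h3
    · subst h3
      refine (htr 1).rank_le.trans (rank_le_one fun Q Q' => ?_)
      rw [sub_one _ hirr Q, sub_one _ hirr Q']
    · obtain ⟨c₀, rfl⟩ : ∃ c₀, c = c₀ + 1 := ⟨c - 1, by omega⟩
      exact ((hkn c₀ (by omega) (by omega)).trans (htr (c₀ + 1))).rank_le.trans
        (ih.low c₀ (by omega) (by omega))
  · intro c h1 h2
    rcases Nat.eq_or_lt_of_le h2 with h3 | h3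
    · have hc : c = Nat.card (VarT (e + 1) s) := by
        rw [card_varT]
        omega
      subst hc
      exact rank_le_one (fun Q Q' => by rw [sub_card hw Q, sub_card hw Q'])
    · obtain ⟨c₀, rfl⟩ : ∃ c₀, c = c₀ + 1 := ⟨c - 1, by omega⟩
      by_cases hc0 : 1 ≤ c₀
      · exact ((hkn c₀ hc0 (by omega)).trans (htr (c₀ + 1))).rank_le.trans
          (ih.high c₀ (by omega) (by omega))
      · have hc1 : c₀ = 0 := by omega
        subst hc1
        refine (htr (0 + 1)).rank_le.trans (rank_le_one fun Q Q' => ?_)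
        rw [sub_one _ hirr Q, sub_one _ hirr Q']

theorem good {e s : ℕ} : ∀ (w : VarT e s → ℕ) (_ : ∀ a, 0 < w a) (D : ℕ)
    (α : Fin e → ℕ) (_ : ∀ i, 0 < α i) (_ : ∀ i, α i * w (.v i) + w (.u i) = D)
    (h : Fin e → MvPolynomial (VarT e s) k) (_ : ∀ i, ∀ a ∈ (h i).vars, LaterT i a)
    (_ : ∀ i, IsWeightedHomogeneous w (X (.v i) * h i) D) (f : MvPolynomial (Fin s) k)
    (_ : f ≠ 0) (_ : IsWeightedHomogeneous (fun j => w (.x j)) f D), Good w (polyT α h f) f := by
  induction e with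
  | zero =>
    intro w hw D α _ _ h _ _ f hf _
    exact good_zero w hw α h f hf
  | succ e ih =>
    intro w hw D α hα hαD h hv hh f hf hfD
    obtain ⟨h₀, h', hs, hv', hh', hh₀⟩ := shift w D α h hv hh f
    have hfD' : IsWeightedHomogeneous
        (fun j => (fun a => w ((shiftE e s).symm (some (some a)))) (VarT.x j)) f D := hfD
    have hα' : ∀ i : Fin e, α i.succ * w ((shiftE e s).symm (some (some (.v i)))) +
        w ((shiftE e s).symm (some (some (.u i)))) = D := fun i => hαD i.succ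
    have h1 := ih (fun a => w ((shiftE e s).symm (some (some a)))) (fun a => hw _) D
      (fun i => α i.succ) (fun i => hα _) hα' h' hv' hh' f hf hfD'
    have h2 := polyT_whom (fun a => w ((shiftE e s).symm (some (some a)))) D
      (fun i => α i.succ) hα' h' hh' f hfD'
    exact good_succ w hw D (polyT α h f) (α 0) (hα 0) (hαD 0) h₀ hh₀ _ hs f h2 h1

end

end Pool.Agent.Helper73.KP
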