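import Pool.Agent.Helper73.KP.Open

/-!
The irrelevant ideal, and the height of extended primes.
-/

namespace Pool.Agent.Helper73.KP

open MvPolynomial Pool.Agent.Helper41.PP

noncomputable section

theorem rn_X (σ κ : Type) [Field κ] (i : σ) : rn σ κ (X i) = X (some i) := by
  change rename Option.some (X i) = _
  rw [rename_X]

theorem rn_C (σ κ : Type) [Field κ] (a : κ) : rn σ κ (C a) = C a := by
  change rename Option.some (C a) = _
  rw [rename_C]

/-- The substitution of a constant for the variable `none`. -/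
def cst {σ κ : Type} [Field κ] (c : κ) : MvPolynomial (Option σ) κ →+* MvPolynomial σ κ :=
  eval₂Hom C (fun o => o.elim (C c) X)

theorem cst_rn {σ κ : Type} [Field κ] (c : κ) (a : MvPolynomial σ κ) :
    cst c (rn σ κ a) = a := by
  have h : (cst c).comp (rn σ κ) = RingHom.id (MvPolynomial σ κ) := by
    apply MvPolynomial.ringHom_ext
    · intro r
      rw [RingHom.comp_apply, rn_C, cst, eval₂Hom_C]
      rfl
    · intro i
      rw [RingHom.comp_apply, rn_X, cst, eval₂Hom_X']
      rfl
  exact congrArg (fun φ : MvPolynomial σ κ →+* MvPolynomial σ κ => φ a) h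

theorem cst_X {σ κ : Type} [Field κ] (c : κ) : cst (σ := σ) c (X none) = C c := by
  rw [cst, eval₂Hom_X']
  rfl

theorem cst_mem {σ κ : Type} [Field κ] (c : κ) (q : Ideal (MvPolynomial σ κ))
    {h : MvPolynomial (Option σ) κ} (hh : h ∈ q.map (rn σ κ)) : cst c h ∈ q := by
  have h1 : q.map (rn σ κ) ≤ q.comap (cst c) := by
    rw [Ideal.map_le_iff_le_comap]
    intro a ha
    rw [Ideal.mem_comap, Ideal.mem_comap, cst_rn]
    exact ha
  exact h1 hh

theorem X_none_not_mem {σ κ : Type} [Field κ] (q : Ideal (MvPolynomial σ κ)) (hq : q ≠ ⊤) :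
    X none ∉ q.map (rn σ κ) := by
  intro h
  have h1 := cst_mem 1 q h
  rw [cst_X, C_1] at h1
  exact hq ((Ideal.eq_top_iff_one _).2 h1)

theorem card_le_height_irr (σ κ : Type) [Finite σ] [Field κ] :
    ∀ (q : Ideal (MvPolynomial σ κ)), q.IsPrime → (∀ i, X i ∈ q) →
      (Nat.card σ : ℕ∞) ≤ q.height := by
  refine Finite.induction_empty_option (P := fun α : Type =>
    ∀ (q : Ideal (MvPolynomial α κ)), q.IsPrime → (∀ i, X i ∈ q) →
      (Nat.card α : ℕ∞) ≤ q.height) ?_ ?_ ?_ σ
  · intro α β e ih q hq h
    have h1 := ih (q.comap ((renameEquiv κ e).toRingEquiv : MvPolynomial α κ →+*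
      MvPolynomial β κ)) (Ideal.comap_isPrime _ _) (by
        intro i
        rw [Ideal.mem_comap]
        have : ((renameEquiv κ e).toRingEquiv : MvPolynomial α κ →+* MvPolynomial β κ) (X i) =
            X (e i) := by
          change rename e (X i) = X (e i)
          rw [rename_X]
        rw [this]
        exact h (e i))
    have h2 : (q.comap ((renameEquiv κ e).toRingEquiv : MvPolynomial α κ →+*
      MvPolynomial β κ)).height = q.height := RingEquiv.height_comap (renameEquiv κ e).toRingEquiv q
    rw [h2, Nat.card_congr e] at h1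
    exact h1
  · intro q hq h
    simp
  · intro α _ ih q hq h
    have h1 := ih (q.comap (rn α κ)) (Ideal.comap_isPrime _ _) (by
      intro i
      rw [Ideal.mem_comap, rn_X]
      exact h (some i))
    have h2 := rn_height α κ q (by
      intro hc
      refine X_none_not_mem (q.comap (rn α κ)) (Ideal.comap_isPrime (rn α κ) q).ne_top ?_
      rw [← hc]
      exact h none)
    rw [h2, Finite.card_option]
    push_cast
    gcongr

theorem X_mem_span {σ κ : Type} [Field κ] (i : σ) :
    X i ∈ Ideal.span (Set.range (X : σ → MvPolynomial σ κ)) :=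
  Ideal.subset_span ⟨i, rfl⟩

theorem irr_eq_ker (σ κ : Type) [Field κ] :
    Ideal.span (Set.range (X : σ → MvPolynomial σ κ)) =
      RingHom.ker (constantCoeff : MvPolynomial σ κ →+* κ) := by
  apply le_antisymm
  · rw [Ideal.span_le]
    rintro _ ⟨i, rfl⟩
    rw [SetLike.mem_coe, RingHom.mem_ker, constantCoeff_X]
  · intro f hf
    rw [RingHom.mem_ker] at hf
    have h3 : f ∈ (idealOfVars σ κ) ^ 1 := by
      rw [mem_pow_idealOfVars_iff]
      intro x hx
      rw [Nat.one_le_iff_ne_zero]
      intro hx0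
      rw [Finsupp.degree_eq_zero_iff] at hx0
      rw [hx0, mem_support_iff] at hx
      exact hx hf
    rw [pow_one] at h3
    exact h3

theorem irr_prime (σ κ : Type) [Field κ] :
    (Ideal.span (Set.range (X : σ → MvPolynomial σ κ))).IsPrime := by
  rw [irr_eq_ker]
  exact RingHom.ker_isPrime _

/-- A homogeneous proper ideal (positive weights) is contained in the irrelevant ideal. -/
theorem le_irr {σ κ : Type} [Field κ] (w : σ → ℕ) (hw : ∀ i, 0 < w i)
    (q : Ideal (MvPolynomial σ κ)) (hq : HomId w q) (hne : q ≠ ⊤) :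
    q ≤ Ideal.span (Set.range (X : σ → MvPolynomial σ κ)) := by
  intro f hf
  have h1 : C (constantCoeff f) ∈ q := by
    have h2 := hq f hf 0
    have h3 : weightedHomogeneousComponent w 0 f = C (constantCoeff f) := by
      have := Finsupp.nonTorsionWeight_of ℕ (w := w) (fun i => (hw i).ne')
      rw [weightedHomogeneousComponent_zero]
      · rfl
      · intro x; exact (hw x).ne'
    rwa [h3] at h2
  have h2 : constantCoeff f = 0 := by
    by_contra h3
    apply hne
    refine Ideal.eq_top_of_isUnit_mem _ h1 (IsUnit.map _ ?_)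
    rwa [isUnit_iff_ne_zero]
  rw [irr_eq_ker, RingHom.mem_ker]
  exact h2

/-- All members of `Sub w I (Nat.card σ)` are the irrelevant ideal. -/
theorem sub_card {σ κ : Type} [Finite σ] [Field κ] {w : σ → ℕ} (hw : ∀ i, 0 < w i)
    {I : Ideal (MvPolynomial σ κ)} (Q : Sub w I (Nat.card σ)) :
    Q.ideal = Ideal.span (Set.range (X : σ → MvPolynomial σ κ)) := by
  classical
  have h1 := le_irr w hw Q.ideal Q.homog Q.prime.ne_top
  have hp := irr_prime σ κ
  by_contra hne
  have h2 : Q.ideal < Ideal.span (Set.range (X : σ → MvPolynomial σ κ)) := lt_of_le_of_ne h1 hne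
  have h3 : (Ideal.span (Set.range (X : σ → MvPolynomial σ κ))).height ≤ Nat.card σ := by
    have h4 : (Ideal.span (Set.range (X : σ → MvPolynomial σ κ))).height ≤
        ((Ideal.span (Set.range (X : σ → MvPolynomial σ κ))).spanFinrank : ℕ∞) :=
      Ideal.height_le_spanFinrank _ hp.ne_top
    refine h4.trans ?_
    have h5 : (Ideal.span (Set.range (X : σ → MvPolynomial σ κ))).spanFinrank ≤
        (Set.range (X : σ → MvPolynomial σ κ)).ncard :=
      Submodule.spanFinrank_span_le_ncard_of_finite (Set.finite_range _)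
    have h6 : (Set.range (X : σ → MvPolynomial σ κ)).ncard ≤ Nat.card σ := by
      rw [← Set.image_univ, ← Set.ncard_univ]
      exact Set.ncard_image_le Set.finite_univ
    exact_mod_cast h5.trans h6
  have h4 := Q.height
  have h5 : Q.ideal.height + 1 ≤ (Ideal.span (Set.range (X : σ → MvPolynomial σ κ))).height :=
    Ideal.height_add_one_le_of_lt_of_isPrime h2
  rw [h4] at h5
  have h6 := h5.trans h3
  have h7 : ((Nat.card σ + 1 : ℕ) : ℕ∞) ≤ (Nat.card σ : ℕ∞) := by exact_mod_cast h6
  have h8 : Nat.card σ + 1 ≤ Nat.card σ := by exact_mod_cast h7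
  omega

/-- If there is only one subvariety, the Chow group has dimension at most one. -/
theorem rank_le_one {σ κ : Type} [Field κ] {w : σ → ℕ} {I : Ideal (MvPolynomial σ κ)} {c : ℕ}
    (h : ∀ Q Q' : Sub w I c, Q.ideal = Q'.ideal) : Module.rank ℚ (CH w I c) ≤ 1 := by
  have hs : Subsingleton (Sub w I c) := ⟨fun Q Q' => sub_ext (h Q Q')⟩
  refine (rank_quotient_le _).trans ?_
  rw [rank_finsupp_self]
  have h1 : Cardinal.mk (Sub w I c) ≤ 1 := Cardinal.le_one_iff_subsingleton.2 hs
  simpa using h1

/-- The ideal of an irreducible polynomial is the only prime of height one over it. -/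
theorem sub_one {σ κ : Type} [Field κ] {w : σ → ℕ} (f : MvPolynomial σ κ)
    (hf : Irreducible f) (Q : Sub w (Ideal.span {f}) 1) : Q.ideal = Ideal.span {f} := by
  have hp : (Ideal.span {f}).IsPrime := by
    rw [Ideal.span_singleton_prime hf.ne_zero]
    exact hf.prime
  by_contra hne
  have h2 : Ideal.span {f} < Q.ideal := lt_of_le_of_ne Q.le (fun h => hne h.symm)
  have h3 : (⊥ : Ideal (MvPolynomial σ κ)) < Ideal.span {f} := by
    rw [bot_lt_iff_ne_bot]
    intro h
    rw [Ideal.span_singleton_eq_bot] at h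
    exact hf.ne_zero h
  have h4 := Ideal.height_add_one_le_of_lt_of_isPrime h2
  have hb : (⊥ : Ideal (MvPolynomial σ κ)).IsPrime := Ideal.isPrime_bot
  have h5 := Ideal.height_add_one_le_of_lt_of_isPrime h3
  rw [Q.height] at h4
  have h6 : (1 : ℕ∞) + 1 ≤ 1 := by
    calc (1 : ℕ∞) + 1 ≤ (Ideal.span {f}).height + 1 := by
          gcongr
          exact le_trans (by simp) h5
      _ ≤ ((1 : ℕ) : ℕ∞) := h4
      _ = 1 := by norm_cast
  exact absurd h6 (by decide)

end

end Pool.Agent.Helper73.KP
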