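import Pool.Agent.Helper41.PP.Vanish
import Pool.Agent.Helper41.PP.TransMult

/-!
The hypersurface `X none * a + b = 0` outside `a = 0`.
-/

namespace Pool.Agent.Helper73.KP

open MvPolynomial Pool.Agent.Helper41.PP

noncomputable section

/-- Rational equivalence, modulo the subvarieties on which `a` vanishes. -/
def SA {σ κ : Type} [Field κ] (w : σ → ℕ) (I : Ideal (MvPolynomial σ κ))
    (a : MvPolynomial σ κ) (c : ℕ) : Submodule ℚ (Sub w I c →₀ ℚ) :=
  Rel w I c ⊔ Submodule.span ℚ {r | ∃ Q : Sub w I c, a ∈ Q.ideal ∧ r = Finsupp.single Q 1}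

variable {σ κ : Type} [Field κ]

theorem single_mem_SA {w : σ → ℕ} {I : Ideal (MvPolynomial σ κ)} {a : MvPolynomial σ κ} {c : ℕ}
    (Q : Sub w I c) (h : a ∈ Q.ideal) : Finsupp.single Q 1 ∈ SA w I a c :=
  Submodule.mem_sup_right (Submodule.subset_span ⟨Q, h, rfl⟩)

theorem mem_of_supp {α : Type} (S : Submodule ℚ (α →₀ ℚ)) (D : α →₀ ℚ)
    (h : ∀ Q, D Q ≠ 0 → Finsupp.single Q 1 ∈ S) : D ∈ S := by
  classical
  rw [← Finsupp.sum_single D]
  refine Submodule.sum_mem _ (fun Q hQ => ?_)
  have h1 := Submodule.smul_mem S (D Q) (h Q (Finsupp.mem_support_iff.mp hQ))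
  simpa using h1

theorem isDiv_unique {w : σ → ℕ} {I : Ideal (MvPolynomial σ κ)} {b c : ℕ} (P : Sub w I b)
    (f : MvPolynomial σ κ) (r s : Sub w I c → ℚ) (hr : IsDiv P f r) (hs : IsDiv P f s)
    (Q : Sub w I c) : r Q = s Q := by
  by_cases h : P.ideal ≤ Q.ideal
  · rw [(hr Q).1 h, (hs Q).1 h]
  · rw [(hr Q).2 h, (hs Q).2 h]

theorem div_supp {w : σ → ℕ} {I : Ideal (MvPolynomial σ κ)} {b c : ℕ} (P : Sub w I b)
    (f : MvPolynomial σ κ) (r : Sub w I c → ℚ) (hr : IsDiv P f r) (Q : Sub w I c)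
    (h : r Q ≠ 0) : P.ideal ≤ Q.ideal ∧ f ∈ Q.ideal := by
  have h1 : P.ideal ≤ Q.ideal := by
    by_contra h1
    exact h ((hr Q).2 h1)
  refine ⟨h1, ?_⟩
  by_contra h2
  apply h
  rw [(hr Q).1 h1, mult_eq_zero _ _ _ h2]
  simp

theorem rn_whom (w : Option σ → ℕ) (m : ℕ) (F : MvPolynomial σ κ)
    (hF : IsWeightedHomogeneous (fun i => w (some i)) F m) :
    IsWeightedHomogeneous w (rn σ κ F) m := by
  have h1 := rn_comp σ κ w m F
  rw [hF.weightedHomogeneousComponent_same] at h1
  rw [h1]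
  exact weightedHomogeneousComponent_isWeightedHomogeneous m _

theorem Q0_homog' (F G : MvPolynomial σ κ) (w : Option σ → ℕ) (m : ℕ)
    (hF : IsWeightedHomogeneous (fun i => w (some i)) F (w none + m))
    (hG : IsWeightedHomogeneous (fun i => w (some i)) G m)
    (q : Ideal (MvPolynomial σ κ)) [q.IsPrime] (hq : HomId (fun i => w (some i)) q)
    (hGq : G ∉ q) : HomId w (Q0 F G q) := by
  have hQ := Q0_prime F G q hGq
  have hc := Q0_comap F G q hGq
  obtain ⟨R, hRp, hRh, hRle, hR⟩ := homId_core w (Q0 F G q)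
  have h1 : rn σ κ F + X none * rn σ κ G ∈ R := by
    apply hR _ (w none + m) _ (Q0_gen F G q)
    exact (rn_whom w _ F hF).add ((isWeightedHomogeneous_X κ w none).mul (rn_whom w m G hG))
  have h2 : rn σ κ G ∉ R := by
    intro h
    have h3 : G ∈ (Q0 F G q).comap (rn σ κ) := hRle h
    rw [hc] at h3
    exact hGq h3
  have h3 : R.comap (rn σ κ) = q := by
    apply le_antisymm
    · intro a ha
      have h4 : a ∈ (Q0 F G q).comap (rn σ κ) := hRle ha
      rwa [hc] at h4
    · apply homId_ext (fun i => w (some i)) q _ hq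
      intro f d hf hfq
      apply hR _ d (rn_whom w d f hf)
      have h4 : f ∈ (Q0 F G q).comap (rn σ κ) := by rwa [hc]
      exact h4
  have h4 := Q0_unique F G R h1 h2
  rw [h3] at h4
  rw [← h4]
  exact hRh

/-- `q ↦ Q0 b a q` sends rational equivalence to rational equivalence. -/
theorem open_map [Finite σ] (w : Option σ → ℕ) (J : Ideal (MvPolynomial σ κ))
    (I : Ideal (MvPolynomial (Option σ) κ)) (a b : MvPolynomial σ κ) (m : ℕ)
    (hb : IsWeightedHomogeneous (fun i => w (some i)) b (w none + m))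
    (ha : IsWeightedHomogeneous (fun i => w (some i)) a m)
    (hI1 : ∀ q : Ideal (MvPolynomial σ κ), q.IsPrime → J ≤ q → a ∉ q → I ≤ Q0 b a q)
    (hI2 : ∀ Q : Ideal (MvPolynomial (Option σ) κ), Q.IsPrime → I ≤ Q → rn σ κ a ∉ Q →
      rn σ κ b + X none * rn σ κ a ∈ Q ∧ J ≤ Q.comap (rn σ κ)) (c : ℕ) :
    ∃ Θ : (Sub (fun i => w (some i)) J c →₀ ℚ) →ₗ[ℚ] (Sub w I (c + 1) →₀ ℚ),
      (∀ r ∈ SA (fun i => w (some i)) J a c, Θ r ∈ SA w I (rn σ κ a) (c + 1)) ∧
      (∀ Q : Sub w I (c + 1), rn σ κ a ∉ Q.ideal → ∃ q : Sub (fun i => w (some i)) J c,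
        a ∉ q.ideal ∧ Q.ideal = Q0 b a q.ideal ∧ Θ (Finsupp.single q 1) = Finsupp.single Q 1) ∧
      (∀ q : Sub (fun i => w (some i)) J c, a ∉ q.ideal → ∃ Q : Sub w I (c + 1),
        Q.ideal = Q0 b a q.ideal ∧ Θ (Finsupp.single q 1) = Finsupp.single Q 1) := by
  classical
  -- the lift of one prime
  have hup : ∀ (c' : ℕ) (q : Sub (fun i => w (some i)) J c'), a ∉ q.ideal →
      ∃ Q : Sub w I (c' + 1), Q.ideal = Q0 b a q.ideal := by
    intro c' q hq
    have := Q0_prime b a q.ideal hq
    refine ⟨⟨Q0 b a q.ideal, inferInstance, Q0_homog' b a w m hb ha q.ideal q.homog hq,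
      hI1 q.ideal q.prime q.le hq, ?_⟩, rfl⟩
    rw [Q0_height b a q.ideal hq, q.height]
    norm_cast
  have hdown : ∀ Q : Sub w I (c + 1), rn σ κ a ∉ Q.ideal → ∃ q : Sub (fun i => w (some i)) J c,
      q.ideal = Q.ideal.comap (rn σ κ) ∧ a ∉ q.ideal ∧ Q.ideal = Q0 b a q.ideal := by
    intro Q hQ
    obtain ⟨h1, h2⟩ := hI2 Q.ideal Q.prime Q.le hQ
    have h3 := Q0_unique b a Q.ideal h1 hQ
    have hG' : a ∉ Q.ideal.comap (rn σ κ) := hQ
    have hht : (Q.ideal.comap (rn σ κ)).height = (c : ℕ∞) := by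
      have h4 := Q.height
      rw [h3, Q0_height b a _ hG'] at h4
      have h5 : (Q.ideal.comap (rn σ κ)).height + 1 = (c : ℕ∞) + 1 := by
        rw [h4]; norm_cast
      exact ENat.add_left_injective_of_ne_top (by simp : (1 : ℕ∞) ≠ ⊤) h5
    refine ⟨⟨Q.ideal.comap (rn σ κ), Ideal.comap_isPrime _ _, ?_, h2, hht⟩, rfl, hG', h3⟩
    intro f hf d
    rw [Ideal.mem_comap, rn_comp]
    exact Q.homog _ hf d
  choose up hupI using hup c
  let θ₀ : Sub (fun i => w (some i)) J c → (Sub w I (c + 1) →₀ ℚ) := fun q =>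
    if h : a ∉ q.ideal then Finsupp.single (up q h) 1 else 0
  let Θ : (Sub (fun i => w (some i)) J c →₀ ℚ) →ₗ[ℚ] (Sub w I (c + 1) →₀ ℚ) :=
    Finsupp.linearCombination ℚ θ₀
  have hinj : ∀ (q q' : Sub (fun i => w (some i)) J c) (hq : a ∉ q.ideal) (hq' : a ∉ q'.ideal),
      up q hq = up q' hq' → q = q' := by
    intro q q' hq hq' h
    have e1 : (up q hq).ideal = (up q' hq').ideal := by rw [h]
    rw [hupI q hq, hupI q' hq'] at e1
    have e2 := congrArg (fun I => Ideal.comap (rn σ κ) I) e1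
    rw [Q0_comap b a _ hq, Q0_comap b a _ hq'] at e2
    exact sub_ext e2
  have hcoef : ∀ (r : Sub (fun i => w (some i)) J c →₀ ℚ) (q : Sub (fun i => w (some i)) J c)
      (hq : a ∉ q.ideal), Θ r (up q hq) = r q := by
    intro r q hq
    have h1 : Θ r (up q hq) = ∑ q' ∈ r.support, r q' * (θ₀ q') (up q hq) := by
      simp only [Θ, Finsupp.linearCombination_apply, Finsupp.sum, Finsupp.finsetSum_apply,
        Finsupp.smul_apply, smul_eq_mul]
    rw [h1, Finset.sum_eq_single q]
    · simp only [θ₀, dif_pos hq, Finsupp.single_eq_same, mul_one]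
    · intro q' _ hne
      by_cases hg : a ∉ q'.ideal
      · simp only [θ₀, dif_pos hg]
        rw [Finsupp.single_apply, if_neg, mul_zero]
        intro h'
        exact hne (hinj q' q hg hq h')
      · simp only [θ₀, dif_neg hg]
        simp
    · intro hn
      rw [Finsupp.notMem_support_iff] at hn
      rw [hn, zero_mul]
  have hsingle : ∀ (q : Sub (fun i => w (some i)) J c) (hq : a ∉ q.ideal),
      Θ (Finsupp.single q 1) = Finsupp.single (up q hq) 1 := by
    intro q hq
    simp only [Θ, Finsupp.linearCombination_single, one_smul, θ₀, dif_pos hq]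
  have hzero : ∀ q : Sub (fun i => w (some i)) J c, a ∈ q.ideal →
      Θ (Finsupp.single q 1) = 0 := by
    intro q hq
    simp only [Θ, Finsupp.linearCombination_single, one_smul, θ₀, dif_neg (not_not.mpr hq)]
  -- divisors
  have hdiv : ∀ (bb : ℕ) (P : Sub (fun i => w (some i)) J bb) (P' : Sub w I (bb + 1))
      (f : MvPolynomial σ κ) (r : Sub (fun i => w (some i)) J c →₀ ℚ)
      (u : Sub w I (c + 1) →₀ ℚ), a ∉ P.ideal → P'.ideal = Q0 b a P.ideal →
      IsDiv P f r → IsDiv P' (rn σ κ f) u → u - Θ r ∈ SA w I (rn σ κ a) (c + 1) := by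
    intro bb P P' f r u haP hP' hr hu
    apply mem_of_supp
    intro Q hQ
    apply single_mem_SA
    by_contra hn
    apply hQ
    obtain ⟨q, hqi, haq, hqQ⟩ := hdown Q hn
    have hupq : up q haq = Q := sub_ext (by rw [hupI q haq, ← hqQ])
    rw [Finsupp.sub_apply, ← hupq, hcoef r q haq, hupq]
    have := Q0_prime b a q.ideal haq
    by_cases hle : P.ideal ≤ q.ideal
    · have hle' : P'.ideal ≤ Q.ideal := by
        rw [hP', hqQ]
        exact Q0_mono b a _ _ hle
      rw [(hu Q).1 hle', (hr q).1 hle]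
      have e1 : mult P'.ideal Q.ideal (rn σ κ f) =
          mult (Q0 b a P.ideal) (Q0 b a q.ideal) (rn σ κ f) := by
        congr 1
      rw [e1, Q0_mult b a P.ideal q.ideal hle haq f, sub_self]
    · have hle' : ¬ P'.ideal ≤ Q.ideal := by
        intro h
        apply hle
        have h2 := Ideal.comap_mono (f := rn σ κ) h
        rw [hP', Q0_comap b a _ haP, ← hqi] at h2
        exact h2
      rw [(hu Q).2 hle', (hr q).2 hle, sub_self]
  refine ⟨Θ, ?_, ?_, ?_⟩
  · have hle : SA (fun i => w (some i)) J a c ≤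
        (SA w I (rn σ κ a) (c + 1)).comap Θ := by
      rw [SA]
      refine sup_le ?_ ?_
      · rw [Pool.Agent.Helper41.PP.Rel, Submodule.span_le]
        rintro r ⟨bb, P, d, f, g, u, v, hbc, hf, hg, hfP, hgP, hu, hv, huv⟩
        rw [SetLike.mem_coe, Submodule.mem_comap]
        by_cases haP : a ∈ P.ideal
        · have h0 : Θ r = 0 := by
            simp only [Θ, Finsupp.linearCombination_apply, Finsupp.sum]
            apply Finset.sum_eq_zero
            intro q hq
            have hrq : r q ≠ 0 := Finsupp.mem_support_iff.mp hq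
            have hle : P.ideal ≤ q.ideal := by
              by_contra h
              apply hrq
              rw [huv q, (hu q).2 h, (hv q).2 h, sub_zero]
            have h1 : a ∈ q.ideal := hle haP
            simp only [θ₀, dif_neg (not_not.mpr h1), smul_zero]
          rw [h0]
          exact Submodule.zero_mem _
        · obtain ⟨P', hP'⟩ := hup bb P haP
          have := Q0_prime b a P.ideal haP
          have hmem : ∀ x : MvPolynomial σ κ, rn σ κ x ∈ P'.ideal ↔ x ∈ P.ideal := by
            intro x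
            rw [hP', ← Ideal.mem_comap, Q0_comap b a _ haP]
          obtain ⟨ru, hru⟩ := exists_div (w := fun i => w (some i)) hbc P f hfP
          obtain ⟨rv, hrv⟩ := exists_div (w := fun i => w (some i)) hbc P g hgP
          obtain ⟨u', hu'⟩ := exists_div (c := c + 1) (by omega) P' (rn σ κ f)
            (fun h => hfP ((hmem f).1 h))
          obtain ⟨v', hv'⟩ := exists_div (c := c + 1) (by omega) P' (rn σ κ g)
            (fun h => hgP ((hmem g).1 h))
          have hr2 : r = ru - rv := by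
            ext Q
            rw [huv Q, Finsupp.sub_apply, isDiv_unique P f u ru hu hru Q,
              isDiv_unique P g v rv hv hrv Q]
          have h1 := hdiv bb P P' f ru u' haP hP' hru hu'
          have h2 := hdiv bb P P' g rv v' haP hP' hrv hv'
          have h3 : u' - v' ∈ SA w I (rn σ κ a) (c + 1) := by
            apply Submodule.mem_sup_left
            apply Submodule.subset_span
            exact ⟨bb + 1, P', d, _, _, u', v', by omega, rn_whom w d f hf, rn_whom w d g hg,
              fun h => hfP ((hmem f).1 h), fun h => hgP ((hmem g).1 h), hu', hv',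
              fun Q => by simp⟩
          have h4 := Submodule.add_mem _ (Submodule.sub_mem _ h3 h1) h2
          rw [hr2, map_sub]
          have h5 : u' - v' - (u' - Θ ru) + (v' - Θ rv) = Θ ru - Θ rv := by abel
          rw [h5] at h4
          exact h4
      · rw [Submodule.span_le]
        rintro r ⟨Q, hQ, rfl⟩
        rw [SetLike.mem_coe, Submodule.mem_comap, hzero Q hQ]
        exact Submodule.zero_mem _
    intro r hr
    exact hle hr
  · intro Q hQ
    obtain ⟨q, hqi, haq, hqQ⟩ := hdown Q hQ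
    have hupq : up q haq = Q := sub_ext (by rw [hupI q haq, ← hqQ])
    exact ⟨q, haq, hqQ, by rw [hsingle q haq, hupq]⟩
  · intro q hq
    exact ⟨up q hq, hupI q hq, hsingle q hq⟩

/-- Divisors of forms of any degree are rationally equivalent to zero modulo `a = 0`. -/
theorem cone_le_SA [Finite σ] (w : σ → ℕ) (J : Ideal (MvPolynomial σ κ)) (a : MvPolynomial σ κ)
    (m : ℕ) (hm : 0 < m) (ha : IsWeightedHomogeneous w a m) (c : ℕ) :
    ConeRel w J c ≤ SA w J a c := by
  classical
  rw [ConeRel, Submodule.span_le]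
  rintro r ⟨b, P, d, f, hbc, hf, hfP, hr⟩
  rw [SetLike.mem_coe]
  by_cases haP : a ∈ P.ideal
  · apply mem_of_supp
    intro Q hQ
    exact single_mem_SA Q ((div_supp P f r hr Q hQ).1 haP)
  · have hfm : f ^ m ∉ P.ideal := fun h => hfP (P.prime.mem_of_pow_mem _ h)
    have had : a ^ d ∉ P.ideal := fun h => haP (P.prime.mem_of_pow_mem _ h)
    obtain ⟨u, hu⟩ := exists_div hbc P _ hfm
    obtain ⟨v, hv⟩ := exists_div hbc P _ had
    have h1 : u - v ∈ SA w J a c := by
      apply Submodule.mem_sup_left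
      apply Submodule.subset_span
      refine ⟨b, P, m * d, f ^ m, a ^ d, u, v, hbc, ?_, ?_, hfm, had, hu, hv, fun Q => by simp⟩
      · simpa using hf.pow m
      · have := ha.pow d
        rw [mul_comm]
        simpa using this
    have h2 : v ∈ SA w J a c := by
      apply mem_of_supp
      intro Q hQ
      exact single_mem_SA Q (Q.prime.mem_of_pow_mem _ (div_supp P _ v hv Q hQ).2)
    have h3 : u = (m : ℚ) • r := by
      ext Q
      rw [Finsupp.smul_apply, smul_eq_mul]
      by_cases hle : P.ideal ≤ Q.ideal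
      · have hht : Q.ideal.height ≤ P.ideal.height + 1 := by
          rw [Q.height, P.height, ← hbc]
          norm_cast
        rw [(hu Q).1 hle, (hr Q).1 hle, mult_pow _ _ hle hht _ hfP m]
        push_cast
        ring
      · rw [(hu Q).2 hle, (hr Q).2 hle, mul_zero]
    have h4 : (m : ℚ) • r ∈ SA w J a c := by
      rw [← h3]
      have := Submodule.add_mem _ h1 h2
      simpa using this
    have h5 := Submodule.smul_mem _ ((m : ℚ)⁻¹) h4
    rwa [smul_smul, inv_mul_cancel₀ (Nat.cast_ne_zero.mpr hm.ne'), one_smul] at h5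

/-- On `X none * a + b = 0` every subvariety which is not a component is rationally equivalent to
a cycle in `a = 0`. -/
theorem open_vanish [Finite σ] (w : Option σ → ℕ) (I : Ideal (MvPolynomial (Option σ) κ))
    (a b : MvPolynomial σ κ) (m : ℕ) (hm : 0 < m)
    (hb : IsWeightedHomogeneous (fun i => w (some i)) b (w none + m))
    (ha : IsWeightedHomogeneous (fun i => w (some i)) a m)
    (hI1 : ∀ q : Ideal (MvPolynomial σ κ), q.IsPrime → a ∉ q → I ≤ Q0 b a q)
    (hI2 : ∀ Q : Ideal (MvPolynomial (Option σ) κ), Q.IsPrime → I ≤ Q → rn σ κ a ∉ Q →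
      rn σ κ b + X none * rn σ κ a ∈ Q) (c : ℕ) (hc : 0 < c) (Q : Sub w I (c + 1)) :
    Finsupp.single Q 1 ∈ SA w I (rn σ κ a) (c + 1) := by
  obtain ⟨Θ, h1, h2, -⟩ := open_map w ⊥ I a b m hb ha (fun q hq _ => hI1 q hq)
    (fun Q hQ hle hn => ⟨hI2 Q hQ hle hn, bot_le⟩) c
  by_cases hQ : rn σ κ a ∈ Q.ideal
  · exact single_mem_SA Q hQ
  · obtain ⟨q, -, -, hq⟩ := h2 Q hQ
    rw [← hq]
    apply h1
    exact cone_le_SA _ _ a m hm ha c (vanish σ κ _ c hc q)

end

end Pool.Agent.Helper73.KP
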