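import Pool.Agent.Helper73.KP.Cone

/-!
One step: from `V(f)` to `V(u v^α + v h + f)`.
-/

namespace Pool.Agent.Helper73.KP

open MvPolynomial Pool.Agent.Helper41.PP

noncomputable section

variable {σ κ : Type} [Field κ]

theorem Q0_zero_one (q : Ideal (MvPolynomial σ κ)) [hq : q.IsPrime] :
    Q0 0 1 q = q.map (rn σ κ) ⊔ Ideal.span {X none} := by
  have h1 : (1 : MvPolynomial σ κ) ∉ q := fun h => hq.ne_top ((Ideal.eq_top_iff_one _).2 h)
  have hg : rn σ κ (0 : MvPolynomial σ κ) + X none * rn σ κ 1 = X none := by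
    rw [map_zero, map_one, zero_add, mul_one]
  apply le_antisymm
  · intro h hh
    obtain ⟨N, a, ha⟩ := psi_red (0 : MvPolynomial σ κ) 1 h
    rw [hg, map_one, one_pow, one_mul] at ha
    have hX : (X none : MvPolynomial (Option σ) κ) ∈ Q0 0 1 q := by
      have := Q0_gen 0 1 q
      rwa [hg] at this
    have h2 : h - rn σ κ a ∈ Q0 0 1 q := by
      have h3 : Ideal.span {(X none : MvPolynomial (Option σ) κ)} ≤ Q0 0 1 q := by
        rw [Ideal.span_le, Set.singleton_subset_iff]
        exact hX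
      exact h3 ha
    have h3 : rn σ κ a ∈ Q0 0 1 q := by
      have := Ideal.sub_mem _ hh h2
      rwa [sub_sub_cancel] at this
    have h4 : a ∈ q := by
      have h5 : a ∈ (Q0 0 1 q).comap (rn σ κ) := h3
      rwa [Q0_comap 0 1 q h1] at h5
    have h5 : h = rn σ κ a + (h - rn σ κ a) := by ring
    rw [h5]
    exact Submodule.add_mem_sup (Ideal.mem_map_of_mem _ h4) ha
  · refine sup_le ?_ ?_
    · rw [Ideal.map_le_iff_le_comap, Q0_comap 0 1 q h1]
    · rw [Ideal.span_le, Set.singleton_subset_iff]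
      have := Q0_gen 0 1 q
      rwa [hg] at this

/-- A variable which vanishes. -/
theorem zero_step [Finite σ] (w : Option σ → ℕ) (J : Ideal (MvPolynomial σ κ))
    (I : Ideal (MvPolynomial (Option σ) κ))
    (h1 : I ≤ J.map (rn σ κ) ⊔ Ideal.span {X none})
    (h2 : ∀ Q : Ideal (MvPolynomial (Option σ) κ), Q.IsPrime → I ≤ Q →
      X none ∈ Q ∧ J.map (rn σ κ) ≤ Q) (c : ℕ) :
    ∃ φ : CH (fun i => w (some i)) J c →ₗ[ℚ] CH w I (c + 1), Function.Surjective φ ∧
      ∀ q, ∃ Q, Q.ideal = q.ideal.map (rn σ κ) ⊔ Ideal.span {X none} ∧ φ (cls q) = cls Q := by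
  classical
  have hg : rn σ κ (0 : MvPolynomial σ κ) + X none * rn σ κ 1 = X none := by
    rw [map_zero, map_one, zero_add, mul_one]
  have hone : ∀ q : Ideal (MvPolynomial σ κ), q.IsPrime → (1 : MvPolynomial σ κ) ∉ q :=
    fun q hq h => hq.ne_top ((Ideal.eq_top_iff_one _).2 h)
  obtain ⟨Θ, hΘ, -, hup⟩ := open_map w J I 1 0 0 (isWeightedHomogeneous_zero κ _ _)
    (isWeightedHomogeneous_one κ _) (by
      intro q hq hJ _
      have := hq
      rw [Q0_zero_one]
      exact h1.trans (sup_le_sup_right (Ideal.map_mono hJ) _)) (by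
      intro Q hQ hI _
      obtain ⟨h3, h4⟩ := h2 Q hQ hI
      rw [hg]
      exact ⟨h3, Ideal.map_le_iff_le_comap.1 h4⟩) c
  choose e he using fun q : Sub (fun i => w (some i)) J c => hup q (hone q.ideal q.prime)
  have hΘe : ∀ r, Θ r = Finsupp.mapDomain e r := by
    intro r
    have : Θ = Finsupp.lmapDomain ℚ ℚ e := by
      apply Finsupp.lhom_ext
      intro q a
      have h3 : Finsupp.single q a = a • Finsupp.single q (1 : ℚ) := by simp
      rw [h3, map_smul, map_smul, (he q).2, Finsupp.lmapDomain_apply, Finsupp.mapDomain_single]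
    rw [this, Finsupp.lmapDomain_apply]
  have hSA : ∀ (σ' : Type) (w' : σ' → ℕ) (I' : Ideal (MvPolynomial σ' κ)) (c' : ℕ),
      SA w' I' 1 c' = Rel w' I' c' := by
    intro σ' w' I' c'
    rw [SA]
    apply le_antisymm _ le_sup_left
    refine sup_le le_rfl ?_
    rw [Submodule.span_le]
    rintro r ⟨Q, hQ, -⟩
    exact absurd ((Ideal.eq_top_iff_one _).2 hQ) Q.prime.ne_top
  rw [map_one, hSA, hSA] at hΘ
  obtain ⟨φ, h3, h4⟩ := ch_map e (fun r hr => by rw [← hΘe]; exact hΘ r hr) (by
    intro Q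
    apply Submodule.mem_sup_right
    apply Submodule.subset_span
    obtain ⟨h5, h6⟩ := h2 Q.ideal Q.prime Q.le
    have hn : rn σ κ 1 ∉ Q.ideal := by
      rw [map_one]
      exact fun h => Q.prime.ne_top ((Ideal.eq_top_iff_one _).2 h)
    have h7 := Q0_unique (0 : MvPolynomial σ κ) 1 Q.ideal (by rw [hg]; exact h5) hn
    have hp : (Q.ideal.comap (rn σ κ)).IsPrime := Ideal.comap_isPrime (rn σ κ) Q.ideal
    have hht : (Q.ideal.comap (rn σ κ)).height = (c : ℕ∞) := by
      have h8 := Q.height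
      rw [h7, Q0_height (0 : MvPolynomial σ κ) 1 _ hn] at h8
      have h9 : (Q.ideal.comap (rn σ κ)).height + 1 = (c : ℕ∞) + 1 := by
        rw [h8]; norm_cast
      exact ENat.add_left_injective_of_ne_top (by simp : (1 : ℕ∞) ≠ ⊤) h9
    refine ⟨⟨Q.ideal.comap (rn σ κ), hp, ?_, Ideal.map_le_iff_le_comap.1 h6, hht⟩, ?_⟩
    · intro f hf d
      rw [Ideal.mem_comap, rn_comp]
      exact Q.homog _ hf d
    · congr 1
      apply sub_ext
      rw [(he _).1]
      exact h7)
  refine ⟨φ, h3, fun q => ⟨e q, ?_, h4 q⟩⟩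
  rw [(he q).1, Q0_zero_one]

/-- The polynomial `u v^α + v h + f`, `u = X none`, `v = X (some none)`. -/
def stepPoly (α : ℕ) (h : MvPolynomial (Option σ) κ) (f : MvPolynomial σ κ) :
    MvPolynomial (Option (Option σ)) κ :=
  X none * X (some none) ^ α + X (some none) * rn (Option σ) κ h +
    rn (Option σ) κ (rn σ κ f)

theorem stepPoly_eq (α : ℕ) (h : MvPolynomial (Option σ) κ) (f : MvPolynomial σ κ) :
    stepPoly α h f = X none * rn (Option σ) κ (X none ^ α) +
      rn (Option σ) κ (X none * h + rn σ κ f) := by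
  rw [stepPoly, map_pow, rn_X, map_add, map_mul, rn_X]
  ring

theorem step_le (α : ℕ) (hα : 0 < α) (h : MvPolynomial (Option σ) κ) (f : MvPolynomial σ κ) :
    Ideal.span {(X none ^ α : MvPolynomial (Option σ) κ), X none * h + rn σ κ f} ≤
      (Ideal.span {f}).map (rn σ κ) ⊔ Ideal.span {X none} := by
  have hX : (X none : MvPolynomial (Option σ) κ) ∈
      (Ideal.span {f}).map (rn σ κ) ⊔ Ideal.span {X none} :=
    Ideal.mem_sup_right (Ideal.mem_span_singleton_self _)
  have hf : rn σ κ f ∈ (Ideal.span {f}).map (rn σ κ) ⊔ Ideal.span {X none} :=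
    Ideal.mem_sup_left (Ideal.mem_map_of_mem _ (Ideal.mem_span_singleton_self _))
  rw [Ideal.span_le, Set.insert_subset_iff, Set.singleton_subset_iff]
  exact ⟨Ideal.pow_mem_of_mem _ hX _ hα, Ideal.add_mem _ (Ideal.mul_mem_right _ _ hX) hf⟩

theorem step_ge (α : ℕ) (h : MvPolynomial (Option σ) κ) (f : MvPolynomial σ κ)
    (Q : Ideal (MvPolynomial (Option σ) κ)) (hQ : Q.IsPrime)
    (hle : Ideal.span {(X none ^ α : MvPolynomial (Option σ) κ), X none * h + rn σ κ f} ≤ Q) :
    X none ∈ Q ∧ (Ideal.span {f}).map (rn σ κ) ≤ Q := by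
  rw [Ideal.span_le, Set.insert_subset_iff, Set.singleton_subset_iff] at hle
  have h3 : (X none : MvPolynomial (Option σ) κ) ∈ Q := hQ.mem_of_pow_mem α hle.1
  refine ⟨h3, ?_⟩
  rw [Ideal.map_span, Set.image_singleton, Ideal.span_le, Set.singleton_subset_iff]
  exact (Ideal.add_mem_iff_right _ (Ideal.mul_mem_right _ _ h3)).1 hle.2

theorem knorrer [Finite σ] (w : Option (Option σ) → ℕ) (hw : ∀ i, 0 < w i) (D α d : ℕ)
    (f : MvPolynomial σ κ) (h : MvPolynomial (Option σ) κ)
    (hf : IsWeightedHomogeneous (fun i => w (some (some i))) f D)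
    (hh : IsWeightedHomogeneous (fun i => w (some i)) h d) (hd : d + w (some none) = D)
    (hα : 0 < α) (hD : α * w (some none) + w none = D) (c : ℕ) (hc : 1 ≤ c)
    (hc' : c ≤ Nat.card σ) :
    ∃ φ : CH (fun i => w (some (some i))) (Ideal.span {f}) c →ₗ[ℚ]
      CH w (Ideal.span {stepPoly α h f}) (c + 1), Function.Surjective φ ∧
      ∀ q, ∃ Q, Q.ideal = (q.ideal.map (rn σ κ)).map (rn (Option σ) κ) ⊔
        Ideal.span {X (some none)} ∧ φ (cls q) = cls Q := by
  obtain ⟨φ₁, h1, h1'⟩ := zero_step (fun i => w (some i)) (Ideal.span {f})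
    (Ideal.span {(X none ^ α : MvPolynomial (Option σ) κ), X none * h + rn σ κ f})
    (step_le α hα h f) (step_ge α h f) c
  have ha : IsWeightedHomogeneous (fun i => w (some i)) (X none ^ α : MvPolynomial (Option σ) κ)
      (α * w (some none)) := by
    have := (isWeightedHomogeneous_X κ (fun i : Option σ => w (some i)) none).pow α
    simpa using this
  have hb : IsWeightedHomogeneous (fun i => w (some i)) (X none * h + rn σ κ f)
      (w none + α * w (some none)) := by
    rw [add_comm (w none), hD]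
    refine IsWeightedHomogeneous.add ?_ (rn_whom (fun i => w (some i)) D f hf)
    rw [← hd, add_comm d]
    exact (isWeightedHomogeneous_X κ (fun i : Option σ => w (some i)) none).mul hh
  obtain ⟨φ₂, h2, h2'⟩ := monoid_step w hw (X none ^ α) (X none * h + rn σ κ f)
    (α * w (some none)) (Nat.mul_pos hα (hw _)) ha hb (c + 1) (by omega) (by
      rw [Finite.card_option]
      omega)
  rw [stepPoly_eq]
  refine ⟨φ₂.comp φ₁, h2.comp h1, ?_⟩
  intro q
  obtain ⟨Q₁, hQ₁, hq₁⟩ := h1' q
  obtain ⟨Q₂, hQ₂, hq₂⟩ := h2' Q₁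
  refine ⟨Q₂, ?_, ?_⟩
  · rw [hQ₂, hQ₁, Ideal.map_sup, Ideal.map_span, Set.image_singleton, rn_X]
  · rw [LinearMap.comp_apply, hq₁, hq₂]

theorem rn_vars (f : MvPolynomial σ κ) : none ∉ (rn σ κ f).vars := by
  classical
  intro h
  change none ∈ (rename Option.some f).vars at h
  have h1 := vars_rename Option.some f h
  rw [Finset.mem_image] at h1
  obtain ⟨x, -, hx⟩ := h1
  exact absurd hx (by simp)

theorem rn_injective (σ κ : Type) [Field κ] : Function.Injective (rn σ κ) := by
  change Function.Injective (rename Option.some)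
  exact rename_injective _ (Option.some_injective _)

theorem left_rn (f : MvPolynomial σ κ) :
    optionEquivLeft κ σ (rn σ κ f) = Polynomial.C f := by
  change optionEquivLeft κ σ (rename Option.some f) = Polynomial.C f
  induction f using MvPolynomial.induction_on with
  | C a => rw [rename_C, optionEquivLeft_C]
  | add p q hp hq => rw [map_add, map_add, hp, hq, Polynomial.C_add]
  | mul_X p i hp => rw [map_mul, map_mul, hp, rename_X, optionEquivLeft_X_some, Polynomial.C_mul]

theorem dvd_rn (a : MvPolynomial σ κ) (ha : a ≠ 0) (d : MvPolynomial (Option σ) κ)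
    (hd : d ∣ rn σ κ a) : ∃ d', d = rn σ κ d' := by
  obtain ⟨e, he⟩ := hd
  have h1 : Polynomial.C a = optionEquivLeft κ σ d * optionEquivLeft κ σ e := by
    rw [← left_rn, he, map_mul]
  have h2 : (optionEquivLeft κ σ d).natDegree = 0 := by
    have h3 := congrArg Polynomial.natDegree h1
    have h0 : optionEquivLeft κ σ d * optionEquivLeft κ σ e ≠ 0 := by
      rw [← h1]
      exact Polynomial.C_ne_zero.2 ha
    rw [Polynomial.natDegree_C, Polynomial.natDegree_mul (left_ne_zero_of_mul h0)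
      (right_ne_zero_of_mul h0)] at h3
    omega
  refine ⟨(optionEquivLeft κ σ d).coeff 0, ?_⟩
  apply (optionEquivLeft κ σ).injective
  rw [left_rn]
  exact Polynomial.eq_C_of_natDegree_eq_zero h2

theorem isRelPrime_rn (a b : MvPolynomial σ κ) (h : IsRelPrime a b) :
    IsRelPrime (rn σ κ a) (rn σ κ b) := by
  rcases eq_or_ne a 0 with ha | ha
  · rw [ha, isRelPrime_zero_left] at h
    rw [ha, map_zero, isRelPrime_zero_left]
    exact h.map (rn σ κ)
  · intro d hda hdb
    obtain ⟨d', rfl⟩ := dvd_rn a ha d hda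
    have hdvd : ∀ x : MvPolynomial σ κ, rn σ κ d' ∣ rn σ κ x → d' ∣ x := by
      rintro x ⟨e, he⟩
      refine ⟨cst 0 e, ?_⟩
      have := congrArg (cst (0 : κ)) he
      rwa [cst_rn, map_mul, cst_rn] at this
    exact (h (hdvd a hda) (hdvd b hdb)).map (rn σ κ)

/-- `X none * a + b` is irreducible if `a`, `b` are relatively prime. -/
theorem monoid_irreducible (a b : MvPolynomial σ κ) (ha : a ≠ 0) (h : IsRelPrime a b) :
    Irreducible (X none * rn σ κ a + rn σ κ b) := by
  rw [mul_comm]
  apply irreducible_mul_X_add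
  · rw [Ne, map_eq_zero_iff _ (rn_injective σ κ)]
    exact ha
  · exact rn_vars a
  · exact rn_vars b
  · exact isRelPrime_rn a b h

theorem step_irreducible (α : ℕ) (h : MvPolynomial (Option σ) κ) (f : MvPolynomial σ κ)
    (hf : f ≠ 0) : Irreducible (stepPoly α h f) := by
  rw [stepPoly_eq]
  apply monoid_irreducible
  · exact pow_ne_zero _ (X_ne_zero _)
  · apply IsRelPrime.pow_left
    have hX : Irreducible (X none : MvPolynomial (Option σ) κ) :=
      (X_prime (R := κ) (i := (none : Option σ))).irreducible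
    rw [hX.isRelPrime_iff_not_dvd]
    intro hd
    have h1 : X none ∣ rn σ κ f := (dvd_add_right (dvd_mul_right _ _)).1 hd
    obtain ⟨e, he⟩ := h1
    apply hf
    have := congrArg (cst (0 : κ)) he
    rw [cst_rn, map_mul, cst_X, C_0, zero_mul] at this
    exact this

end

end Pool.Agent.Helper73.KP
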