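import Pool.Agent.Helper73.KP.Defs
import Pool.Agent.Helper73.KP.Step

/-!
The explicit family as a tower of steps (helper3).
-/

namespace Pool.Agent.Helper73.KP

open MvPolynomial Pool.Agent.Helper41.PP

noncomputable section

/-- `VarT` as a sum type. -/
def varTE (e s : ℕ) : VarT e s ≃ (Fin e ⊕ Fin e) ⊕ Fin s where
  toFun
    | .u i => Sum.inl (Sum.inl i)
    | .v i => Sum.inl (Sum.inr i)
    | .x j => Sum.inr j
  invFun
    | Sum.inl (Sum.inl i) => .u i
    | Sum.inl (Sum.inr i) => .v i
    | Sum.inr j => .x j
  left_inv := by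
    rintro (i | i | j) <;> rfl
  right_inv := by
    rintro ((i | i) | j) <;> rfl

instance (e s : ℕ) : Finite (VarT e s) := Finite.of_equiv _ (varTE e s).symm

instance (e s : ℕ) : Finite (Var e s) := Finite.of_equiv _ (zE e s).symm

theorem card_varT (e s : ℕ) : Nat.card (VarT e s) = 2 * e + s := by
  rw [Nat.card_congr (varTE e s), Nat.card_sum, Nat.card_sum, Nat.card_fin, Nat.card_fin]
  ring

/-- Weighted homogeneity and renaming. -/
theorem whom_rename {k σ τ : Type} [Field k] (g : σ → τ) (hg : Function.Injective g) (w : τ → ℕ)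
    (D : ℕ) (p : MvPolynomial σ k) :
    IsWeightedHomogeneous w (rename g p) D ↔ IsWeightedHomogeneous (fun i => w (g i)) p D := by
  have hw : ∀ t : σ →₀ ℕ, Finsupp.weight w (t.mapDomain g) =
      Finsupp.weight (fun i => w (g i)) t := by
    intro t
    rw [Finsupp.weight_apply, Finsupp.weight_apply, Finsupp.sum_mapDomain_index]
    · intro b; simp
    · intro b m n; simp [add_mul]
  constructor
  · intro h d hd
    rw [← hw]
    apply h
    rwa [coeff_rename_mapDomain g hg]
  · intro h d hd
    obtain ⟨t, ht, h1⟩ : ∃ t : σ →₀ ℕ, t.mapDomain g = d ∧ coeff t p ≠ 0 := by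
      by_contra hcon
      push Not at hcon
      exact hd (coeff_rename_eq_zero g p d hcon)
    rw [← ht, hw]
    exact h h1

/-- Dividing by a variable. -/
theorem whom_of_mul {k σ : Type} [Field k] (w : σ → ℕ) (D : ℕ) (i : σ) (hi : w i ≤ D)
    (h : MvPolynomial σ k) (hh : IsWeightedHomogeneous w (X i * h) D) :
    IsWeightedHomogeneous w h (D - w i) := by
  intro d hd
  have h1 : coeff (Finsupp.single i 1 + d) (X i * h) ≠ 0 := by
    rwa [coeff_X_mul]
  have h2 := hh h1
  rw [map_add, Finsupp.weight_single, one_smul] at h2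
  omega

/-- The polynomials whose variables are in the range of an injective map. -/
theorem exists_lift {k σ τ : Type} [Field k] (g : σ → τ) (hg : Function.Injective g)
    (p : MvPolynomial τ k) (hp : ∀ a ∈ p.vars, ∃ b, g b = a) :
    ∃ q : MvPolynomial σ k, rename g q = p ∧ ∀ b ∈ q.vars, g b ∈ p.vars := by
  classical
  obtain ⟨q, hq⟩ := exists_rename_eq_of_vars_subset_range p g hg (by
    intro a ha
    exact hp a ha)
  refine ⟨q, hq, ?_⟩
  intro b hb
  rw [← hq]
  rw [mem_vars] at hb ⊢
  obtain ⟨d, hd, hbd⟩ := hb
  refine ⟨d.mapDomain g, ?_, ?_⟩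
  · rw [mem_support_iff, coeff_rename_mapDomain g hg]
    exact mem_support_iff.1 hd
  · rw [Finsupp.mem_support_iff, Finsupp.mapDomain_apply hg]
    exact Finsupp.mem_support_iff.1 hbd

theorem shift {k : Type} [Field k] {e s : ℕ} (w : VarT (e + 1) s → ℕ) (D : ℕ)
    (α : Fin (e + 1) → ℕ) (h : Fin (e + 1) → MvPolynomial (VarT (e + 1) s) k)
    (hv : ∀ i, ∀ a ∈ (h i).vars, LaterT i a)
    (hh : ∀ i, IsWeightedHomogeneous w (X (.v i) * h i) D) (f : MvPolynomial (Fin s) k) :
    ∃ (h₀ : MvPolynomial (Option (VarT e s)) k) (h' : Fin e → MvPolynomial (VarT e s) k),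
      rename (shiftE e s) (polyT α h f) =
        stepPoly (α 0) h₀ (polyT (fun i => α i.succ) h' f) ∧
      (∀ i, ∀ a ∈ (h' i).vars, LaterT i a) ∧
      (∀ i, IsWeightedHomogeneous (fun a => w ((shiftE e s).symm (some (some a))))
        (X (.v i) * h' i) D) ∧
      IsWeightedHomogeneous (fun a => w ((shiftE e s).symm (some a))) (X none * h₀) D := by
  classical
  have hg1 : Function.Injective (fun a : VarT e s => (shiftE e s).symm (some (some a))) :=
    fun a b hab => Option.some_injective _ (Option.some_injective _
      ((shiftE e s).symm.injective hab))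
  have hg0 : Function.Injective (fun a : Option (VarT e s) => (shiftE e s).symm (some a)) :=
    fun a b hab => Option.some_injective _ ((shiftE e s).symm.injective hab)
  obtain ⟨h₀, hh₀, -⟩ := exists_lift (fun a : Option (VarT e s) => (shiftE e s).symm (some a))
    hg0 (h 0) (by
      intro a ha
      have h1 := hv 0 a ha
      match a with
      | .u i =>
        have h2 : (0 : Fin (e + 1)) < i := h1
        obtain ⟨j, rfl⟩ := Fin.exists_succ_eq.2 h2.ne'
        exact ⟨some (.u j), rfl⟩
      | .v i =>
        rcases Fin.eq_zero_or_eq_succ i with rfl | ⟨j, rfl⟩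
        · exact ⟨none, rfl⟩
        · exact ⟨some (.v j), rfl⟩
      | .x j => exact ⟨some (.x j), rfl⟩)
  have hlift : ∀ i : Fin e, ∃ q : MvPolynomial (VarT e s) k,
      rename (fun a : VarT e s => (shiftE e s).symm (some (some a))) q = h i.succ ∧
      ∀ b ∈ q.vars, (shiftE e s).symm (some (some b)) ∈ (h i.succ).vars := by
    intro i
    apply exists_lift _ hg1
    intro a ha
    have h1 := hv i.succ a ha
    match a with
    | .u j =>
      have h2 : i.succ < j := h1
      obtain ⟨l, rfl⟩ := Fin.exists_succ_eq.2 (lt_of_le_of_lt (Fin.zero_le _) h2).ne'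
      exact ⟨.u l, rfl⟩
    | .v j =>
      have h2 : i.succ ≤ j := h1
      obtain ⟨l, rfl⟩ := Fin.exists_succ_eq.2 (lt_of_lt_of_le (Fin.succ_pos i) h2).ne'
      exact ⟨.v l, rfl⟩
    | .x j => exact ⟨.x j, rfl⟩
  choose h' hh' hv' using hlift
  refine ⟨h₀, h', ?_, ?_, ?_, ?_⟩
  · have e0 : rename (shiftE e s) (h 0) = rn (Option (VarT e s)) k h₀ := by
      rw [← hh₀, rename_rename]
      change _ = rename Option.some h₀
      congr 2
      funext a
      simp
    have e1 : ∀ i, rename (shiftE e s) (h i.succ) =
        rn (Option (VarT e s)) k (rn (VarT e s) k (h' i)) := by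
      intro i
      rw [← hh' i, rename_rename]
      change _ = rename Option.some (rename Option.some (h' i))
      rw [rename_rename]
      congr 2
      funext a
      simp
    have ef : rename (shiftE e s) (rename VarT.x f : MvPolynomial (VarT (e + 1) s) k) =
        rn (Option (VarT e s)) k (rn (VarT e s) k (rename VarT.x f)) := by
      change _ = rename Option.some (rename Option.some (rename VarT.x f))
      rw [rename_rename, rename_rename, rename_rename]
      rfl
    unfold polyT stepPoly
    rw [map_add, map_sum, Fin.sum_univ_succ, ef]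
    simp only [map_add, map_mul, map_pow, rename_X, map_sum, e0, e1, rn_X]
    have a0 : (shiftE e s) (VarT.u 0) = none := rfl
    have a1 : (shiftE e s) (VarT.v 0) = some none := rfl
    have a2 : ∀ i : Fin e, (shiftE e s) (VarT.u i.succ) = some (some (VarT.u i)) := fun i => rfl
    have a3 : ∀ i : Fin e, (shiftE e s) (VarT.v i.succ) = some (some (VarT.v i)) := fun i => rfl
    simp only [a0, a1, a2, a3]
    rw [add_assoc]
  · intro i a ha
    have h1 := hv i.succ _ (hv' i a ha)
    match a with
    | .u j => exact Fin.succ_lt_succ_iff.1 h1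
    | .v j => exact Fin.succ_le_succ_iff.1 h1
    | .x j => trivial
  · intro i
    rw [← whom_rename (fun a : VarT e s => (shiftE e s).symm (some (some a))) hg1 w D]
    rw [map_mul, rename_X, hh' i]
    exact hh i.succ
  · rw [← whom_rename (fun a : Option (VarT e s) => (shiftE e s).symm (some a)) hg0 w D]
    rw [map_mul, rename_X, hh₀]
    exact hh 0

/-- Without `z`. -/
theorem unz {k : Type} [Field k] {e s : ℕ} (A : Family k e s) :
    ∃ h' : Fin e → MvPolynomial (VarT e s) k,
      rename (zE e s) A.poly = X none * rename (zE e s) A.g + rn (VarT e s) k (polyT A.α h' A.f) ∧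
      (∀ i, ∀ a ∈ (h' i).vars, LaterT i a) ∧
      (∀ i, IsWeightedHomogeneous (fun a => A.w ((zE e s).symm (some a))) (X (.v i) * h' i)
        A.D) := by
  classical
  have hg1 : Function.Injective (fun a : VarT e s => (zE e s).symm (some a)) :=
    fun a b hab => Option.some_injective _ ((zE e s).symm.injective hab)
  have hlift : ∀ i : Fin e, ∃ q : MvPolynomial (VarT e s) k,
      rename (fun a : VarT e s => (zE e s).symm (some a)) q = A.h i ∧
      ∀ b ∈ q.vars, (zE e s).symm (some b) ∈ (A.h i).vars := by
    intro i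
    apply exists_lift _ hg1
    intro a ha
    have h1 := A.h_vars i a ha
    match a with
    | .z => exact absurd h1 (by simp [Later])
    | .u j => exact ⟨.u j, rfl⟩
    | .v j => exact ⟨.v j, rfl⟩
    | .x j => exact ⟨.x j, rfl⟩
  choose h' hh' hv' using hlift
  refine ⟨h', ?_, ?_, ?_⟩
  · have e1 : ∀ i, rename (zE e s) (A.h i) = rn (VarT e s) k (h' i) := by
      intro i
      rw [← hh' i, rename_rename]
      change _ = rename Option.some (h' i)
      congr 2
      funext a
      simp
    have ef : rename (zE e s) (rename Var.x A.f : MvPolynomial (Var e s) k) =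
        rn (VarT e s) k (rename VarT.x A.f) := by
      change _ = rename Option.some (rename VarT.x A.f)
      rw [rename_rename, rename_rename]
      rfl
    unfold Family.poly polyT
    rw [map_add, map_add, map_sum, ef]
    simp only [map_add, map_mul, map_pow, rename_X, map_sum, e1, rn_X]
    have a0 : (zE e s) (Var.z) = none := rfl
    have a2 : ∀ i : Fin e, (zE e s) (Var.u i) = some (VarT.u i) := fun i => rfl
    have a3 : ∀ i : Fin e, (zE e s) (Var.v i) = some (VarT.v i) := fun i => rfl
    simp only [a0, a2, a3]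
    rw [add_assoc]
  · intro i a ha
    have h1 := A.h_vars i _ (hv' i a ha)
    match a with
    | .u j => exact h1
    | .v j => exact h1
    | .x j => trivial
  · intro i
    rw [← whom_rename (fun a : VarT e s => (zE e s).symm (some a)) hg1 A.w A.D]
    rw [map_mul, rename_X, hh' i]
    exact A.h_deg i

/-- The polynomial in `z = 0` is homogeneous. -/
theorem polyT_whom {k : Type} [Field k] {e s : ℕ} (w : VarT e s → ℕ) (D : ℕ) (α : Fin e → ℕ)
    (hα : ∀ i, α i * w (.v i) + w (.u i) = D) (h : Fin e → MvPolynomial (VarT e s) k)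
    (hh : ∀ i, IsWeightedHomogeneous w (X (.v i) * h i) D) (f : MvPolynomial (Fin s) k)
    (hf : IsWeightedHomogeneous (fun j => w (.x j)) f D) :
    IsWeightedHomogeneous w (polyT α h f) D := by
  classical
  unfold polyT
  refine IsWeightedHomogeneous.add ?_ ?_
  · apply IsWeightedHomogeneous.sum
    intro i _
    refine IsWeightedHomogeneous.add ?_ (hh i)
    have h1 := (isWeightedHomogeneous_X k w (VarT.u i)).mul
      ((isWeightedHomogeneous_X k w (VarT.v i)).pow (α i))
    rw [smul_eq_mul, add_comm, hα i] at h1
    exact h1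
  · rw [whom_rename VarT.x (fun a b hab => by injection hab) w D]
    exact hf

end

end Pool.Agent.Helper73.KP
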